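import Pool.Agent.Work.MP_12f267_p2.Interface

set_option autoImplicit false

/-! Block ARI (helper94): arithmetic of the primary parts. -/

open TensorProduct

namespace Pool.Agent.MP12f267

universe u

theorem ARI_prod (n : ℕ) (hn : 0 < n) {ι : Type} [Fintype ι] (q : ι → ℕ)
    (hq : Function.Injective q) (hall : ∀ r : ℕ, r.Prime → r ∣ n → ∃ i, q i = r) :
    ∏ i, q i ^ n.factorization (q i) = n := by
  classical
  have h1 : n.factorization.prod (fun x y => x ^ y) = n := Nat.prod_factorization_pow_eq_self hn.ne'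
  have h2 : n.factorization.support ⊆ Finset.univ.image q := by
    intro r hr
    have hr' : r ∈ n.primeFactors := hr
    obtain ⟨i, hi⟩ := hall r (Nat.prime_of_mem_primeFactors hr') (Nat.dvd_of_mem_primeFactors hr')
    exact Finset.mem_image.mpr ⟨i, Finset.mem_univ i, hi⟩
  rw [Finsupp.prod_of_support_subset _ h2 _ (by intro i _; exact pow_zero i)] at h1
  rw [Finset.prod_image (fun a _ b _ h => hq h)] at h1
  exact h1

theorem ARI_dvd (n : ℕ) {ι : Type} (q : ι → ℕ)
    (hq : Function.Injective q) (hp : ∀ i, (q i).Prime) {i j : ι} (h : i ≠ j) :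
    q i ^ n.factorization (q i) ∣ n / q j ^ n.factorization (q j) := by
  have hc : Nat.Coprime (q i ^ n.factorization (q i)) (q j ^ n.factorization (q j)) :=
    Nat.Coprime.pow _ _ ((Nat.coprime_primes (hp i) (hp j)).mpr fun e => h (hq e))
  refine hc.dvd_of_dvd_mul_left ?_
  rw [Nat.ordProj_mul_ordCompl_eq_self]
  exact Nat.ordProj_dvd n (q i)

theorem ARI_main (n : ℕ) (hn : 0 < n) {ι : Type} [Fintype ι] (q : ι → ℕ)
    (hq : Function.Injective q) (hp : ∀ i, (q i).Prime)
    (hall : ∀ r : ℕ, r.Prime → r ∣ n → ∃ i, q i = r) (k : ι → ℤ)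
    (hk : ∀ j, ((q j ^ n.factorization (q j) : ℕ) : ℤ) ∣ k j - 1 ∧
        ((n / q j ^ n.factorization (q j) : ℕ) : ℤ) ∣ k j) :
    (n : ℤ) ∣ (∑ j, k j) - 1 := by
  classical
  have h1 : (n : ℤ) = ∏ i, ((q i ^ n.factorization (q i) : ℕ) : ℤ) := by
    conv_lhs => rw [← ARI_prod n hn q hq hall]
    push_cast
    rfl
  rw [h1]
  refine Finset.prod_dvd_of_coprime ?_ ?_
  · intro i _ j _ hij
    exact Nat.isCoprime_iff_coprime.mpr
      (Nat.Coprime.pow _ _ ((Nat.coprime_primes (hp i) (hp j)).mpr fun e => hij (hq e)))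
  · intro i _
    rw [← Finset.add_sum_erase Finset.univ k (Finset.mem_univ i)]
    have e : k i + ∑ x ∈ Finset.univ.erase i, k x - 1 =
      (k i - 1) + ∑ x ∈ Finset.univ.erase i, k x := by ring
    rw [e]
    refine dvd_add (hk i).1 (Finset.dvd_sum fun j hj => ?_)
    have hji : i ≠ j := fun h => (Finset.ne_of_mem_erase hj) h.symm
    exact (Int.natCast_dvd_natCast.mpr (ARI_dvd n q hq hp hji)).trans (hk j).2

theorem p_ARI : Stmt_ARI := by
  intro n hn J _ p hpi hp hall
  let q : Option J → ℕ := fun o => o.elim 2 p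
  have hq : Function.Injective q := by
    intro a b h
    cases a with
    | none =>
      cases b with
      | none => rfl
      | some b => exact absurd h.symm (hp b).2
    | some a =>
      cases b with
      | none => exact absurd h (hp a).2
      | some b => exact congrArg some (hpi h)
  have hqp : ∀ i, (q i).Prime := by
    intro i
    cases i with
    | none => exact Nat.prime_two
    | some a => exact (hp a).1
  have hqa : ∀ r : ℕ, r.Prime → r ∣ n → ∃ i, q i = r := by
    intro r hr hd
    by_cases h2 : r = 2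
    · exact ⟨none, h2.symm⟩
    · obtain ⟨j, hj⟩ := hall r hr h2 hd
      exact ⟨some j, hj⟩
  refine ⟨?_, ?_, ?_⟩
  · have h := ARI_prod n hn q hq hqa
    rw [Fintype.prod_option] at h
    exact h
  · have hc : Nat.Coprime (2 ^ n.factorization 2) (n / 2 ^ n.factorization 2) :=
      Nat.Coprime.pow_left _ (Nat.coprime_ordCompl Nat.prime_two hn.ne')
    obtain ⟨k, hk1, hk2⟩ := Nat.chineseRemainder hc 1 0
    refine ⟨k, ?_, ?_⟩
    · have := (Nat.modEq_iff_dvd.mp hk1.symm)
      exact_mod_cast this
    · exact (Nat.modEq_zero_iff_dvd).mp hk2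
  · intro k k₂ hk h1 h2
    have h := ARI_main n hn q hq hqp hqa (fun o => o.elim k₂ k) (by
      intro j
      cases j with
      | none => exact ⟨h1, h2⟩
      | some j => exact hk j)
    rw [Fintype.sum_option] at h
    exact h

end Pool.Agent.MP12f267
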