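import Pool.Agent.Work.MP_12f267_p2.Interface

open TensorProduct

namespace Pool.Agent.MP12f267

universe u

theorem BMI_mul {F A A' : Type u} [Field F] [Ring A] [Algebra F A] [Ring A']
    [Algebra F A'] (r : ℕ) (e : A ≃ₐ[F] A') (x y : ⨂[F] _ : Fin r, A) :
    (PiTensorProduct.congr fun _ : Fin r => e.toLinearEquiv) (x * y) =
      (PiTensorProduct.congr fun _ : Fin r => e.toLinearEquiv) x *
      (PiTensorProduct.congr fun _ : Fin r => e.toLinearEquiv) y := by
  have h := (LinearMap.map_mul_iff
    (PiTensorProduct.congr fun _ : Fin r => e.toLinearEquiv).toLinearMap).mpr (by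
      apply PiTensorProduct.ext
      apply MultilinearMap.ext
      intro x
      apply PiTensorProduct.ext
      apply MultilinearMap.ext
      intro y
      change (PiTensorProduct.congr fun _ : Fin r => e.toLinearEquiv)
          (PiTensorProduct.tprod F x * PiTensorProduct.tprod F y) =
        (PiTensorProduct.congr fun _ : Fin r => e.toLinearEquiv) (PiTensorProduct.tprod F x) *
        (PiTensorProduct.congr fun _ : Fin r => e.toLinearEquiv) (PiTensorProduct.tprod F y)
      rw [PiTensorProduct.tprod_mul_tprod, PiTensorProduct.congr_tprod,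
        PiTensorProduct.congr_tprod, PiTensorProduct.congr_tprod, PiTensorProduct.tprod_mul_tprod]
      exact congrArg (PiTensorProduct.tprod F) (funext fun i => map_mul e (x i) (y i)))
  exact h x y

/-- Tensor powers of isomorphic algebras are isomorphic. -/
noncomputable def BMI_equiv {F A A' : Type u} [Field F] [Ring A] [Algebra F A] [Ring A']
    [Algebra F A'] (r : ℕ) (e : A ≃ₐ[F] A') :
    (⨂[F] _ : Fin r, A) ≃ₐ[F] (⨂[F] _ : Fin r, A') :=
  AlgEquiv.ofLinearEquiv (PiTensorProduct.congr fun _ => e.toLinearEquiv)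
    (by
      rw [PiTensorProduct.one_def, PiTensorProduct.congr_tprod, PiTensorProduct.one_def]
      exact congrArg (PiTensorProduct.tprod F) (funext fun i => map_one e))
    (BMI_mul r e)

theorem p_BMI : Stmt_BMI.{u} := by
  intro F A A' B _ _ _ _ _ _ _ r e h
  obtain ⟨k, l, hk, hl, ⟨f⟩⟩ := h
  exact ⟨k, l, hk, hl, ⟨((BMI_equiv r e).symm.mapMatrix (m := Fin k)).trans f⟩⟩

end Pool.Agent.MP12f267
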