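import Pool.Agent.Work.MP_12f267_p2.Interface

/-! Block CSA (helper2). -/

open TensorProduct

namespace Pool.Agent.MP12f267

universe u

section

variable {F L A ι : Type u} [Field F] [Field L] [Algebra F L] [Ring A] [Algebra F A]
    [Fintype ι] [DecidableEq ι]

lemma CSA_span (θ : A →ₐ[F] Matrix ι ι L) {J : Type u} (b : Module.Basis J F A)
    (hs : Submodule.span L (Set.range θ) = ⊤) :
    Submodule.span L (Set.range fun j => θ (b j)) = ⊤ := by
  rw [eq_top_iff, ← hs, Submodule.span_le]
  rintro _ ⟨x, rfl⟩
  have hx : x ∈ Submodule.span F (Set.range b) := by rw [b.span_eq]; trivial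
  show θ x ∈ Submodule.span L (Set.range fun j => θ (b j))
  induction hx using Submodule.span_induction with
  | mem x hx =>
    obtain ⟨j, rfl⟩ := hx
    exact Submodule.subset_span ⟨j, rfl⟩
  | zero => rw [map_zero]; exact Submodule.zero_mem _
  | add x y _ _ hx hy => rw [map_add]; exact Submodule.add_mem _ hx hy
  | smul c x _ hx =>
    rw [map_smul, ← algebraMap_smul L c (θ x)]
    exact Submodule.smul_mem _ _ hx

end

theorem p_CSA : Stmt_CSA.{u} := by
  intro F L A ι _ _ _ _ _ _ _ _ M hM
  classical
  obtain ⟨m⟩ := hM
  have hpos : 0 < Module.finrank F A := by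
    rw [m.dim]
    exact pow_pos Fintype.card_pos 2
  have hfin : FiniteDimensional F A := FiniteDimensional.of_finrank_pos hpos
  have hnt : Nontrivial A := Module.nontrivial_of_finrank_pos (R := F) hpos
  let b := Module.Free.chooseBasis F A
  have hcard : Fintype.card (Module.Free.ChooseBasisIndex F A) = Module.finrank F A :=
    (Module.finrank_eq_card_chooseBasisIndex F A).symm
  have hfr : Module.finrank L (Matrix ι ι L) = Fintype.card ι ^ 2 := by
    rw [Module.finrank_matrix]
    simp [sq]
  let c : Module.Free.ChooseBasisIndex F A → Matrix ι ι L := fun j => m.θ (b j)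
  have hc : Submodule.span L (Set.range c) = ⊤ := CSA_span m.θ b m.span
  have hli : LinearIndependent L c := by
    apply linearIndependent_of_top_le_span_of_card_eq_finrank (ge_of_eq hc)
    rw [hcard, hfr, m.dim]
  have hexp : ∀ x : A, m.θ x = ∑ j, algebraMap F L (b.repr x j) • c j := by
    intro x
    conv_lhs => rw [← b.sum_repr x]
    rw [map_sum]
    refine Finset.sum_congr rfl fun j _ => ?_
    rw [map_smul, algebraMap_smul]
  have hinj : Function.Injective m.θ := by
    rw [injective_iff_map_eq_zero]
    intro x hx
    have h1 := hexp x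
    rw [hx] at h1
    have h2 := Fintype.linearIndependent_iff.mp hli _ h1.symm
    apply b.repr.injective
    ext j
    have h3 := h2 j
    rw [map_eq_zero] at h3
    rw [h3, map_zero]
    rfl
  refine ⟨⟨fun z hz => ?_⟩, ?_⟩
  · -- the centre
    rw [Subalgebra.mem_center_iff] at hz
    obtain ⟨μ, hμ⟩ : ∃ μ : L, m.θ z = μ • (1 : Matrix ι ι L) := by
      have hall : ∀ X : Matrix ι ι L, X * m.θ z = m.θ z * X := by
        intro X
        have hX : X ∈ Submodule.span L (Set.range m.θ) := by rw [m.span]; trivial
        induction hX using Submodule.span_induction with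
        | mem x hx =>
          obtain ⟨y, rfl⟩ := hx
          rw [← map_mul, ← map_mul, hz y]
        | zero => simp
        | add x y _ _ hx hy => rw [add_mul, mul_add, hx, hy]
        | smul c x _ hx => rw [smul_mul_assoc, mul_smul_comm, hx]
      obtain ⟨μ, hμ⟩ := Matrix.mem_range_scalar_iff_commute_single'.mpr
        (fun i j => (hall (Matrix.single i j 1) : Commute (Matrix.single i j (1 : L)) (m.θ z)))
      refine ⟨μ, ?_⟩
      rw [← hμ, Matrix.smul_one_eq_diagonal]
      rfl
    have h1 : ∑ j, (algebraMap F L (b.repr z j) - μ * algebraMap F L (b.repr 1 j)) • c j = 0 := by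
      have e1 := hexp z
      have e2 := hexp 1
      rw [map_one] at e2
      simp only [sub_smul, Finset.sum_sub_distrib, mul_smul]
      rw [← e1, ← Finset.smul_sum, ← e2, hμ, sub_self]
    have h2 := Fintype.linearIndependent_iff.mp hli _ h1
    obtain ⟨j, hj⟩ : ∃ j, b.repr 1 j ≠ 0 := by
      by_contra hcon
      push Not at hcon
      have : b.repr (1 : A) = 0 := Finsupp.ext hcon
      exact one_ne_zero ((LinearEquiv.map_eq_zero_iff _).mp this)
    have hj' : algebraMap F L (b.repr 1 j) ≠ 0 := by simpa using hj
    have h3 : μ = algebraMap F L (b.repr z j / b.repr 1 j) := by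
      rw [map_div₀, eq_div_iff hj']
      exact (sub_eq_zero.mp (h2 j)).symm
    refine Algebra.mem_bot.mpr ⟨b.repr z j / b.repr 1 j, hinj ?_⟩
    rw [hμ, h3, AlgHom.commutes, Algebra.algebraMap_eq_smul_one, algebraMap_smul]
  · -- simplicity
    refine IsSimpleRing.of_eq_bot_or_eq_top fun I => ?_
    by_contra hI
    push Not at hI
    obtain ⟨hbot, htop⟩ := hI
    obtain ⟨x, hx, hx0⟩ : ∃ x ∈ I, x ≠ 0 := by
      by_contra hcon
      push Not at hcon
      exact hbot (le_bot_iff.mp fun x hx => by rw [TwoSidedIdeal.mem_bot]; exact hcon x hx)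
    -- the subspace
    let S : Submodule F A :=
      { carrier := {y | y ∈ I}
        add_mem' := fun h h' => I.add_mem h h'
        zero_mem' := I.zero_mem
        smul_mem' := fun c y h => by
          show c • y ∈ I
          rw [Algebra.smul_def]
          exact I.mul_mem_left _ _ h }
    have hθx : m.θ x ≠ 0 := fun h => hx0 (hinj (by rw [h, map_zero]))
    obtain ⟨k, p, q, hpq⟩ := exists_sum_mul_mul (m.θ x) hθx
    let W : Submodule L (Matrix ι ι L) := Submodule.span L (m.θ '' (S : Set A))
    have hWl : ∀ (X Y : Matrix ι ι L), Y ∈ W → X * Y ∈ W := by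
      intro X Y hY
      have hX : X ∈ Submodule.span L (Set.range m.θ) := by rw [m.span]; trivial
      induction hX using Submodule.span_induction with
      | mem X hX =>
        obtain ⟨a, rfl⟩ := hX
        induction hY using Submodule.span_induction with
        | mem Y hY =>
          obtain ⟨y, hy, rfl⟩ := hY
          exact Submodule.subset_span ⟨a * y, I.mul_mem_left _ _ hy, map_mul _ _ _⟩
        | zero => rw [mul_zero]; exact W.zero_mem
        | add Y Z _ _ hY hZ => rw [mul_add]; exact W.add_mem hY hZ
        | smul c Y _ hY => rw [mul_smul_comm]; exact W.smul_mem _ hY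
      | zero => rw [zero_mul]; exact W.zero_mem
      | add Z Z' _ _ hZ hZ' => rw [add_mul]; exact W.add_mem hZ hZ'
      | smul c Z _ hZ => rw [smul_mul_assoc]; exact W.smul_mem _ hZ
    have hWr : ∀ (X Y : Matrix ι ι L), Y ∈ W → Y * X ∈ W := by
      intro X Y hY
      have hX : X ∈ Submodule.span L (Set.range m.θ) := by rw [m.span]; trivial
      induction hX using Submodule.span_induction with
      | mem X hX =>
        obtain ⟨a, rfl⟩ := hX
        induction hY using Submodule.span_induction with
        | mem Y hY =>
          obtain ⟨y, hy, rfl⟩ := hY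
          exact Submodule.subset_span ⟨y * a, I.mul_mem_right _ _ hy, map_mul _ _ _⟩
        | zero => rw [zero_mul]; exact W.zero_mem
        | add Y Z _ _ hY hZ => rw [add_mul]; exact W.add_mem hY hZ
        | smul c Y _ hY => rw [smul_mul_assoc]; exact W.smul_mem _ hY
      | zero => rw [mul_zero]; exact W.zero_mem
      | add Z Z' _ _ hZ hZ' => rw [mul_add]; exact W.add_mem hZ hZ'
      | smul c Z _ hZ => rw [mul_smul_comm]; exact W.smul_mem _ hZ
    have h1W : (1 : Matrix ι ι L) ∈ W := by
      rw [← hpq]
      exact W.sum_mem fun i _ => hWr _ _ (hWl _ _ (Submodule.subset_span ⟨x, hx, rfl⟩))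
    have hWtop : W = ⊤ := by
      rw [eq_top_iff]
      intro X _
      have := hWl X 1 h1W
      rwa [mul_one] at this
    -- dimension
    let s := Module.finBasis F S
    have hWs : W ≤ Submodule.span L (Set.range fun i => m.θ (s i : A)) := by
      rw [Submodule.span_le]
      rintro _ ⟨y, hy, rfl⟩
      have e : y = ∑ i, s.repr ⟨y, hy⟩ i • (s i : A) := by
        have := congrArg (fun z : S => (z : A)) (s.sum_repr ⟨y, hy⟩)
        simp only [Submodule.coe_sum, Submodule.coe_smul] at this
        exact this.symm
      rw [e]
      show m.θ _ ∈ Submodule.span L (Set.range fun i => m.θ (s i : A))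
      rw [map_sum]
      refine Submodule.sum_mem _ fun i _ => ?_
      rw [map_smul, ← algebraMap_smul L]
      exact Submodule.smul_mem _ _ (Submodule.subset_span ⟨i, rfl⟩)
    have hle : Fintype.card ι ^ 2 ≤ Module.finrank F S := by
      have h1 : Submodule.span L (Set.range fun i => m.θ (s i : A)) = ⊤ :=
        top_le_iff.mp (hWtop ▸ hWs)
      have h2 := finrank_range_le_card (R := L) (fun i => m.θ (s i : A))
      rw [Set.finrank, h1, finrank_top, hfr, Fintype.card_fin] at h2
      exact h2
    have hStop : S = ⊤ := by
      apply Submodule.eq_top_of_finrank_eq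
      apply le_antisymm (Submodule.finrank_le S)
      rw [m.dim]
      exact hle
    apply htop
    rw [eq_top_iff]
    intro y _
    have : y ∈ S := by rw [hStop]; trivial
    exact this

end Pool.Agent.MP12f267
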