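import Pool.Agent.Work.MP_12f267_p2.Interface

open TensorProduct

namespace Pool.Agent.MP12f267

universe u

/-- One by one matrices. -/
def KILL_one (F R : Type u) [Field F] [Ring R] [Algebra F R] :
    Matrix (Fin 1) (Fin 1) R ≃ₐ[F] R where
  toFun M := M 0 0
  invFun a := Matrix.of fun _ _ => a
  left_inv M := by
    ext i j
    rw [Subsingleton.elim i 0, Subsingleton.elim j 0]
    rfl
  right_inv a := rfl
  map_mul' M N := by
    rw [Matrix.mul_apply]
    simp
  map_add' M N := rfl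
  commutes' c := by
    show (algebraMap F (Matrix (Fin 1) (Fin 1) R) c) 0 0 = _
    rw [Matrix.algebraMap_matrix_apply]
    simp

theorem p_KILL (hT : Stmt_TRIV.{u}) : Stmt_KILL.{u} := by
  intro F L A ι _ _ _ _ _ _ _ _ _ _ _ _ M k hm hc
  obtain ⟨m⟩ := hm
  have h2 : Cohom (L ≃ₐ[F] L) L (fun _ _ => 1) (M.tpow k).a :=
    hc.trans (Cohom.of_eq fun g h => by
      show M.a g h ^ (k : ℤ) = M.a g h ^ k
      exact zpow_natCast _ _)
  obtain ⟨e⟩ := hT F L (⨂[F] _ : Fin k, A) (Fin k → ι) (M.tpow k) ⟨m.tpow k⟩ h2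
  exact ⟨1, Fintype.card (Fin k → ι), one_ne_zero, Fintype.card_ne_zero,
    ⟨(KILL_one F (⨂[F] _ : Fin k, A)).trans e⟩⟩

end Pool.Agent.MP12f267
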