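import Pool.Agent.Work.MP_12f267_p2.Interface

set_option autoImplicit false

/-! Block REST: restriction of a model to an intermediate field. -/

open TensorProduct

namespace Pool.Agent.MP12f267

universe u

section

variable {F E L A ι : Type u} [Field F] [Field E] [Field L] [Algebra F E] [Algebra E L]
  [Algebra F L] [IsScalarTower F E L] [Ring A] [Algebra F A] [Fintype ι] [DecidableEq ι]

/-- the extension of the scalars of an algebra homomorphism to the matrix algebra -/
noncomputable def REST_hom (θ : A →ₐ[F] Matrix ι ι L) : E ⊗[F] A →ₐ[E] Matrix ι ι L :=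
  Algebra.TensorProduct.lift (Algebra.ofId E (Matrix ι ι L)) θ
    (fun e a => Algebra.commutes e (θ a))

lemma REST_hom_tmul (θ : A →ₐ[F] Matrix ι ι L) (e : E) (a : A) :
    REST_hom (E := E) θ (e ⊗ₜ[F] a) = e • θ a := by
  rw [REST_hom, Algebra.TensorProduct.lift_tmul, Algebra.ofId_apply, Algebra.smul_def]

end

theorem p_REST : Stmt_REST.{u} := by
  intro F E L A ι _ _ _ _ _ _ _ _ _ _ _ M ⟨m⟩
  refine ⟨⟨REST_hom m.θ, ?_, ?_, ?_⟩⟩
  · rw [eq_top_iff, ← m.span]
    refine Submodule.span_mono ?_
    rintro _ ⟨a, rfl⟩
    exact ⟨(1 : E) ⊗ₜ[F] a, by rw [REST_hom_tmul, one_smul]⟩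
  · rw [Module.finrank_baseChange, m.dim]
  · intro g x
    induction x using TensorProduct.induction_on with
    | zero =>
      rw [map_zero, zero_mul, Matrix.map_zero _ (smul_zero g), mul_zero]
    | tmul e a =>
      have h := m.comm (g.restrictScalars F) a
      have h1 : ((e • m.θ a).map (fun z => g • z) : Matrix ι ι L) =
          e • (m.θ a).map (fun z => g • z) := by
        ext i j
        simp only [Matrix.map_apply, Matrix.smul_apply]
        show g (e • (m.θ a i j)) = e • g (m.θ a i j)
        exact map_smul g e _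
      rw [REST_hom_tmul, h1, smul_mul_assoc, mul_smul_comm]
      congr 1
    | add x y hx hy =>
      rw [map_add, add_mul, hx, hy, ← mul_add]
      congr 1
      ext i j
      simp only [Matrix.map_apply, Matrix.add_apply, smul_add]

end Pool.Agent.MP12f267
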