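import Pool.Agent.Work.MP_12f267_p2.Interface

/-! Block RTS. -/

set_option autoImplicit false

open TensorProduct

namespace Pool.Agent.MP12f267

universe u

/-- An element of `Gal(L/F)` fixing a primitive element of `K / F` fixes `K`. -/
theorem RTS_fix (F K L : Type u) [Field F] [Field K] [Field L] [Algebra F K] [Algebra F L]
    [Algebra K L] [IsScalarTower F K L] (α : K) (hα : IntermediateField.adjoin F {α} = ⊤)
    (g : L ≃ₐ[F] L) (hg : g (algebraMap K L α) = algebraMap K L α) (y : K) :
    g (algebraMap K L y) = algebraMap K L y := by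
  have hy : y ∈ IntermediateField.adjoin F {α} := by
    rw [hα]
    exact IntermediateField.mem_top
  refine IntermediateField.adjoin_induction (F := F)
    (p := fun z _ => g (algebraMap K L z) = algebraMap K L z) ?_ ?_ ?_ ?_ ?_ hy
  · intro x hx
    rw [Set.mem_singleton_iff] at hx
    rw [hx]
    exact hg
  · intro x
    rw [← IsScalarTower.algebraMap_apply F K L]
    exact g.commutes x
  · intro x z _ _ hx hz
    rw [map_add, map_add, hx, hz]
  · intro x _ hx
    rw [map_inv₀, map_inv₀, hx]
  · intro x z _ _ hx hz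
    rw [map_mul, map_mul, hx, hz]

theorem p_RTS (hMNO : Stmt_MNO.{u}) : Stmt_RTS.{u} := by
  intro F K L _ _ _ _ _ _ _ _ _ _ α b hα hb hb0 hc
  have hint : IsIntegral F α := Algebra.IsIntegral.isIntegral α
  have hirr : Irreducible (minpoly F α) := minpoly.irreducible hint
  have htr := transitive_roots F L hirr (minpoly.monic hint)
  have hx0 : Polynomial.aeval (algebraMap K L α) (minpoly F α) = 0 := by
    rw [Polynomial.aeval_algebraMap_apply, minpoly.aeval, map_zero]
  let x : Roots F L (minpoly F α) := ⟨algebraMap K L α, hx0⟩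
  refine hMNO (L ≃ₐ[F] L) L (Roots F L (minpoly F α)) b x hb hb0 ?_
  obtain ⟨ν, hν0, hν⟩ := hc
  have hfix : ∀ (g : MulAction.stabilizer (L ≃ₐ[F] L) x) (y : K),
      (g : L ≃ₐ[F] L) (algebraMap K L y) = algebraMap K L y := by
    intro g y
    exact RTS_fix F K L α hα g (congrArg Subtype.val g.2) y
  let up : MulAction.stabilizer (L ≃ₐ[F] L) x → (L ≃ₐ[K] L) := fun g =>
    AlgEquiv.ofRingEquiv (f := (g : L ≃ₐ[F] L).toRingEquiv) (fun y => hfix g y)
  have hup : ∀ (g : MulAction.stabilizer (L ≃ₐ[F] L) x) (l : L), up g l = (g : L ≃ₐ[F] L) l :=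
    fun g l => rfl
  have hupr : ∀ g : MulAction.stabilizer (L ≃ₐ[F] L) x,
      (up g).restrictScalars F = (g : L ≃ₐ[F] L) := by
    intro g
    ext l
    rfl
  have hmul : ∀ g h : MulAction.stabilizer (L ≃ₐ[F] L) x, up (g * h) = up g * up h := by
    intro g h
    ext l
    rfl
  refine ⟨fun g => ν (up g), fun g => hν0 _, fun g h => ?_⟩
  have h1 := hν (up g) (up h)
  beta_reduce at h1 ⊢
  rw [hupr, hupr, ← hmul] at h1
  exact h1

end Pool.Agent.MP12f267
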