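import Pool.Agent.Work.MP_12f267_p2.Interface

set_option autoImplicit false

open TensorProduct

namespace Pool.Agent.MP12f267

universe u

/-- A central simple algebra is a matrix algebra over a central division algebra. -/
theorem STA_div (E C : Type u) [Field E] [Ring C] [Algebra E C] [Algebra.IsCentral E C]
    [IsSimpleRing C] [FiniteDimensional E C] (n : ℕ) (hC : Module.finrank E C = n ^ 2) :
    ∃ (t k : ℕ) (D : Type u) (_ : DivisionRing D) (_ : Algebra E D) (_ : Algebra.IsCentral E D)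
      (_ : FiniteDimensional E D), t ≠ 0 ∧ Module.finrank E D = k ^ 2 ∧
      Nonempty (C ≃ₐ[E] Matrix (Fin t) (Fin t) D) := by
  classical
  have : IsArtinianRing C := IsArtinianRing.of_finite E C
  obtain ⟨t, ht, D, _, _, _, ⟨e⟩⟩ := IsSimpleRing.exists_algEquiv_matrix_divisionRing_finite E C
  have : Algebra.IsCentral E (Matrix (Fin t) (Fin t) D) := Algebra.IsCentral.of_algEquiv E C _ e
  have hcen : Algebra.IsCentral E D := by
    constructor
    intro d hd
    have hd2 : Matrix.scalar (Fin t) d ∈ Subalgebra.center E (Matrix (Fin t) (Fin t) D) := by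
      rw [Subalgebra.mem_center_iff]
      intro b
      ext i j
      simp [Matrix.scalar_apply, Matrix.mul_apply, Matrix.diagonal_apply,
        (Subalgebra.mem_center_iff.mp hd)]
    obtain ⟨a, ha⟩ := Algebra.IsCentral.mem_center_iff (K := E) |>.mp hd2
    have h0 := congrFun (congrFun ha 0) 0
    simp [Matrix.scalar_apply, Matrix.algebraMap_matrix_apply] at h0
    exact Algebra.mem_bot.mpr ⟨a, h0.symm⟩
  have hfin : n ^ 2 = t ^ 2 * Module.finrank E D := by
    rw [← hC, e.toLinearEquiv.finrank_eq, Module.finrank_matrix, Fintype.card_fin]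
    ring
  obtain ⟨d, hd⟩ : t ∣ n := (Nat.pow_dvd_pow_iff (two_ne_zero)).mp (Dvd.intro _ hfin.symm)
  have ht0 : 0 < t := Nat.pos_of_ne_zero (NeZero.ne t)
  have hD : Module.finrank E D = d ^ 2 := by
    rw [hd, mul_pow] at hfin
    exact (Nat.eq_of_mul_eq_mul_left (pow_pos ht0 2) hfin).symm
  exact ⟨t, d, D, inferInstance, inferInstance, hcen, inferInstance, ht0.ne', hD, ⟨e⟩⟩

theorem p_STA (hCSA : Stmt_CSA.{u}) (hKILL : Stmt_KILL.{u}) : Stmt_STA.{u} := by
  intro E C _ _ _ _ _ _ _ n m d hC hm hbound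
  classical
  have hn : 0 < n := deg_pos hC
  obtain ⟨fC, hfC, hfC'⟩ := stmt_SEP E C n hC
  obtain ⟨L₀, _, _, _, _, -, -, hsplit⟩ := stmt_ENLB E E (Fin 1)
    ![minpoly E fC] (fun j => by fin_cases j; simpa using hfC)
  have hsC : ((minpoly E fC).map (algebraMap E L₀)).Splits := hsplit 0
  have := finite_roots E L₀ (hfC.ne_zero)
  have := Fintype.ofFinite (Roots E L₀ (minpoly E fC))
  obtain ⟨c₀, hm₀⟩ := stmt_MODEL stmt_SIMPLE E C L₀ n fC hn hC hfC hfC' hsC
  have hc₀ := Model.card_eq hm₀ hC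
  have : Nonempty (Roots E L₀ (minpoly E fC)) := Fintype.card_pos_iff.mp (by omega)
  obtain ⟨m₀⟩ := hm₀
  -- the tensor power
  obtain ⟨hcen, hsimp⟩ := hCSA E L₀ (⨂[E] _ : Fin m, C) (Fin m → Roots E L₀ (minpoly E fC))
    (c₀.toPMod.tpow m) ⟨m₀.tpow m⟩
  have hdim : Module.finrank E (⨂[E] _ : Fin m, C) = (n ^ m) ^ 2 := by
    rw [(m₀.tpow m).dim, Fintype.card_fun, Fintype.card_fin, hc₀]
  have hfd : FiniteDimensional E (⨂[E] _ : Fin m, C) := by
    apply Module.finite_of_finrank_pos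
    rw [hdim]
    positivity
  obtain ⟨t, k, D, _, _, _, _, ht0, hD, ⟨e⟩⟩ := STA_div E (⨂[E] _ : Fin m, C) (n ^ m) hdim
  have hk : 0 < k := deg_pos hD
  obtain ⟨f, hf, hfk⟩ := stmt_SEP E D k hD
  have hint : IsIntegral E f := Algebra.IsIntegral.isIntegral f
  have hirr : Irreducible (minpoly E f) := minpoly.irreducible hint
  obtain ⟨L, _, _, _, _, _, _, hsp⟩ := stmt_ENLB E L₀ (Fin 1)
    ![minpoly E f] (fun j => by fin_cases j; simpa using hf)
  have hsD : ((minpoly E f).map (algebraMap E L)).Splits := hsp 0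
  have := finite_roots E L (hf.ne_zero)
  have := Fintype.ofFinite (Roots E L (minpoly E f))
  obtain ⟨c, hmD⟩ := stmt_MODEL stmt_SIMPLE E D L k f hk hD hf hfk hsD
  have hc := Model.card_eq hmD hD
  have : Nonempty (Roots E L (minpoly E f)) := Fintype.card_pos_iff.mp (by omega)
  have hM : Nonempty (Model E L C (c₀.toPMod.inflGal L)) :=
    stmt_MINF E L₀ L C _ c₀.toPMod ⟨m₀⟩
  obtain ⟨mM⟩ := hM
  have hcoh : Cohom (L ≃ₐ[E] L) L c.a (fun g h => (c₀.toPMod.inflGal L).a g h ^ (m : ℤ)) := by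
    have h1 := cohom_of_matrix (stmt_CMP stmt_ISOCOH) E L (⨂[E] _ : Fin m, C) D _ _ t ht0 e
      c.toPMod ((c₀.toPMod.inflGal L).tpow m) hmD ⟨mM.tpow m⟩
    refine Cohom.trans h1 (Cohom.of_eq fun g h => ?_)
    show (c₀.toPMod.inflGal L).a g h ^ m = _
    rw [zpow_natCast]
  have h2m := stmt_BRAUER E L C E _ _ (c₀.toPMod.inflGal L) (trivMod (L ≃ₐ[E] L) L) (2 * m)
    ⟨mM⟩ (model_base E L) hm
  have h2 : Cohom (L ≃ₐ[E] L) L (fun _ _ => 1) (fun g h => c.a g h ^ ((2 : ℕ) : ℤ)) := by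
    apply Cohom.symm
    refine Cohom.trans (hcoh.zpow ((2 : ℕ) : ℤ)) (Cohom.trans (Cohom.of_eq fun g h => ?_) h2m)
    rw [← zpow_mul]
    congr 1
    push_cast
    ring
  have hK : IsBrauerMultiple E D E 2 :=
    hKILL E L D (Roots E L (minpoly E f)) c.toPMod 2 hmD h2
  have hdvd : k ∣ 2 ^ d := hbound D k hD hK
  refine ⟨L, _, _, inferInstance, inferInstance, _, _, _, inferInstance,
    c₀.toPMod.inflGal L, minpoly E f, c, ⟨mM⟩, hirr, minpoly.monic hint, ?_, hsD, hcoh⟩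
  rw [hfk]
  exact hdvd

end Pool.Agent.MP12f267
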