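import Pool.Agent.Work.MP_12f267_p2.Interface

open TensorProduct

namespace Pool.Agent.MP12f267

universe u

theorem p_STB (hREST : Stmt_REST.{u}) (hKILL : Stmt_KILL.{u}) : Stmt_STB.{u} := by
  intro E C L ι _ _ _ _ _ _ _ _ _ _ _ _ M q c m hM hq hqm hqs hcoh
  -- a root
  have hdeg : q.degree ≠ 0 := (Polynomial.degree_pos_of_irreducible hq).ne'
  obtain ⟨x, hx⟩ := hqs.exists_eval_eq_zero (by rwa [Polynomial.degree_map])
  have hx' : Polynomial.aeval x q = 0 := by
    rw [Polynomial.aeval_def, ← Polynomial.eval_map]
    exact hx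
  have hmin : q = minpoly E x := minpoly.eq_of_irreducible_of_monic hq hx' hqm
  have hint : IsIntegral E x := Algebra.IsIntegral.isIntegral x
  have hsep : Algebra.IsSeparable E (IntermediateField.adjoin E {x}) :=
    Algebra.isSeparable_tower_bot_of_isSeparable E (IntermediateField.adjoin E {x}) L
  have hinf : Infinite (IntermediateField.adjoin E {x}) :=
    Infinite.of_injective (algebraMap E (IntermediateField.adjoin E {x}))
      (algebraMap E (IntermediateField.adjoin E {x})).injective
  refine ⟨IntermediateField.adjoin E {x}, inferInstance, inferInstance, inferInstance, hsep, ?_, ?_⟩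
  · rw [IntermediateField.adjoin.finrank hint, ← hmin]
  · refine hKILL (IntermediateField.adjoin E {x}) L ((IntermediateField.adjoin E {x}) ⊗[E] C) ι
      (M.restr (IntermediateField.adjoin E {x})) m
      (hREST E (IntermediateField.adjoin E {x}) L C ι M hM) ?_
    -- the class is trivial over `K`
    obtain ⟨x₀, hx₀⟩ : ∃ x₀ : Roots E L q, x₀.1 = x := ⟨⟨x, hx'⟩, rfl⟩
    have hfix : ∀ g : L ≃ₐ[IntermediateField.adjoin E {x}] L,
        (g.restrictScalars E) • x₀ = x₀ := by
      intro g
      refine Subtype.ext ?_
      show g x₀.1 = x₀.1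
      rw [hx₀]
      exact g.commutes ⟨x, IntermediateField.mem_adjoin_simple_self E x⟩
    have h1 : Cohom (L ≃ₐ[IntermediateField.adjoin E {x}] L) L (fun _ _ => 1)
        (fun g h => c.a (g.restrictScalars E) (h.restrictScalars E)) := by
      refine ⟨fun g => c.c (g.restrictScalars E) x₀, fun g => c.c_ne _ _, fun g h => ?_⟩
      have h2 := c.mul (g.restrictScalars E) (h.restrictScalars E) x₀
      rw [hfix h] at h2
      rw [one_mul]
      exact h2.symm
    have h3 : Cohom (L ≃ₐ[IntermediateField.adjoin E {x}] L) L
        (fun g h => c.a (g.restrictScalars E) (h.restrictScalars E))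
        (fun g h => (M.restr (IntermediateField.adjoin E {x})).a g h ^ (m : ℤ)) := by
      obtain ⟨ν, hν, h4⟩ := hcoh
      exact ⟨fun g => ν (g.restrictScalars E), fun g => hν _,
        fun g h => h4 (g.restrictScalars E) (h.restrictScalars E)⟩
    exact h1.trans h3

end Pool.Agent.MP12f267
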