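import Pool.Agent.Work.MP_12f267_p2.Interface

open TensorProduct

namespace Pool.Agent.MP12f267

universe u

/-- The trivial module of any dimension. -/
def TRIV_mod (G L ι : Type u) [Group G] [Field L] [MulSemiringAction G L] [Fintype ι]
    [DecidableEq ι] : PMod G L ι where
  P _ := 1
  a _ _ := 1
  a_ne _ _ := one_ne_zero
  det_ne _ := by simp
  mul g h := by
    have e : (1 : Matrix ι ι L).map (fun x => g • x) = 1 := by
      ext i j
      rw [Matrix.map_apply]
      by_cases hij : i = j
      · subst hij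
        rw [Matrix.one_apply_eq, smul_one]
      · rw [Matrix.one_apply_ne hij, smul_zero]
    rw [e, one_mul, one_smul]

/-- The conjugate of an algebra homomorphism into matrices. -/
def TRIV_conj {F L A ι : Type u} [Field F] [Field L] [Algebra F L] [Ring A] [Algebra F A]
    [Fintype ι] [DecidableEq ι] (θ : A →ₐ[F] Matrix ι ι L) (S T : Matrix ι ι L) (hST : S * T = 1)
    (hTS : T * S = 1) : A →ₐ[F] Matrix ι ι L where
  toFun x := S * θ x * T
  map_one' := by rw [map_one, mul_one, hST]
  map_mul' x y := by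
    calc S * θ (x * y) * T = S * (θ x * θ y) * T := by rw [map_mul]
      _ = S * (θ x * (T * S) * θ y) * T := by rw [hTS, mul_one]
      _ = S * θ x * T * (S * θ y * T) := by simp only [Matrix.mul_assoc]
  map_zero' := by rw [map_zero, mul_zero, zero_mul]
  map_add' x y := by rw [map_add, mul_add, add_mul]
  commutes' r := by
    rw [AlgHom.commutes, ← Algebra.commutes, Matrix.mul_assoc, hST, mul_one]

theorem p_TRIV : Stmt_TRIV.{u} := by
  intro F L A ι _ _ _ _ _ _ _ _ _ _ _ M ⟨mo⟩ hcoh
  have hfin : FiniteDimensional F A := Module.finite_of_finrank_pos (by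
    rw [mo.dim]
    exact pow_pos Fintype.card_pos 2)
  obtain ⟨ν, hν, h1⟩ := hcoh.symm
  obtain ⟨S, T, hST, hTS, hS⟩ := stmt_UNIQ (L ≃ₐ[F] L) L ι ι M (TRIV_mod (L ≃ₐ[F] L) L ι) ν
    (infFix_gal F L) rfl hν h1
  have hS' : ∀ g : L ≃ₐ[F] L, S.map (fun x => g • x) = ν g • (S * M.P g) := by
    intro g
    have h2 := hS g
    have h3 : (TRIV_mod (L ≃ₐ[F] L) L ι).P g = 1 := rfl
    rw [h3, one_mul] at h2
    exact h2
  have hSTg : ∀ g : L ≃ₐ[F] L, S.map (fun x => g • x) * T.map (fun x => g • x) = 1 := by
    intro g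
    rw [← CmpBlock.map_smul_mul, hST]
    ext i j
    rw [Matrix.map_apply]
    by_cases hij : i = j
    · subst hij
      rw [Matrix.one_apply_eq, smul_one]
    · rw [Matrix.one_apply_ne hij, smul_zero]
  obtain ⟨θ', hθ'⟩ : ∃ θ' : A →ₐ[F] Matrix ι ι L, ∀ x, θ' x = S * mo.θ x * T :=
    ⟨TRIV_conj mo.θ S T hST hTS, fun x => rfl⟩
  have hfix : ∀ (g : L ≃ₐ[F] L) (x : A), (θ' x).map (fun z => g • z) = θ' x := by
    intro g x
    have e1 : (θ' x).map (fun z => g • z) * S.map (fun z => g • z) =
        θ' x * S.map (fun z => g • z) := by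
      calc (θ' x).map (fun z => g • z) * S.map (fun z => g • z)
          = (θ' x * S).map (fun z => g • z) := (CmpBlock.map_smul_mul g _ _).symm
        _ = (S * mo.θ x).map (fun z => g • z) := by
            rw [hθ', Matrix.mul_assoc, hTS, mul_one]
        _ = S.map (fun z => g • z) * (mo.θ x).map (fun z => g • z) := CmpBlock.map_smul_mul g _ _
        _ = ν g • (S * (M.P g * (mo.θ x).map (fun z => g • z))) := by
            rw [hS', Matrix.smul_mul, Matrix.mul_assoc]
        _ = ν g • (S * (mo.θ x * M.P g)) := by rw [mo.comm]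
        _ = ν g • (S * mo.θ x * (T * S) * M.P g) := by rw [hTS, mul_one, Matrix.mul_assoc]
        _ = θ' x * (ν g • (S * M.P g)) := by
            rw [hθ', Matrix.mul_smul]
            simp only [Matrix.mul_assoc]
        _ = θ' x * S.map (fun z => g • z) := by rw [hS']
    calc (θ' x).map (fun z => g • z)
        = (θ' x).map (fun z => g • z) * (S.map (fun z => g • z) * T.map (fun z => g • z)) := by
          rw [hSTg, mul_one]
      _ = ((θ' x).map (fun z => g • z) * S.map (fun z => g • z)) * T.map (fun z => g • z) := by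
          rw [Matrix.mul_assoc]
      _ = θ' x * S.map (fun z => g • z) * T.map (fun z => g • z) := by rw [e1]
      _ = θ' x := by rw [Matrix.mul_assoc, hSTg, mul_one]
  -- the entries come from `F`
  obtain ⟨j, hj⟩ : ∃ j : Matrix ι ι F →ₐ[F] Matrix ι ι L, ∀ X, j X = X.map (algebraMap F L) :=
    ⟨(Algebra.ofId F L).mapMatrix, fun X => rfl⟩
  have hjinj : Function.Injective j := by
    intro X Y hXY
    rw [hj, hj] at hXY
    ext a b
    have h2 := congrFun (congrFun hXY a) b
    simp only [Matrix.map_apply] at h2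
    exact (algebraMap F L).injective h2
  have hrange : ∀ x, θ' x ∈ j.range := by
    intro x
    have h2 : ∀ a b, ∃ y : F, algebraMap F L y = θ' x a b := by
      intro a b
      have h3 : θ' x a b ∈ Set.range (algebraMap F L) := by
        rw [IsGalois.mem_range_algebraMap_iff_fixed]
        intro g
        have h4 := congrFun (congrFun (hfix g x) a) b
        rw [Matrix.map_apply] at h4
        exact h4
      exact h3
    choose Y hY using h2
    refine ⟨Matrix.of fun a b => Y a b, ?_⟩
    show j (Matrix.of fun a b => Y a b) = θ' x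
    rw [hj]
    ext a b
    rw [Matrix.map_apply, Matrix.of_apply, hY]
  obtain ⟨ψ, hψ⟩ : ∃ ψ : A →ₐ[F] Matrix ι ι F, ∀ x, j (ψ x) = θ' x := by
    refine ⟨((AlgEquiv.ofInjective j hjinj).symm : j.range →ₐ[F] Matrix ι ι F).comp
      (θ'.codRestrict j.range hrange), fun x => ?_⟩
    have h2 := (AlgEquiv.ofInjective j hjinj).apply_symm_apply (θ'.codRestrict j.range hrange x)
    exact congrArg Subtype.val h2
  have hθinj : Function.Injective mo.θ := by
    obtain ⟨Θ, hΘ⟩ := CmpBlock.exists_equiv mo.θ mo.span mo.dim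
    intro x y hxy
    have h2 : Θ ((1 : L) ⊗ₜ[F] x) = Θ ((1 : L) ⊗ₜ[F] y) := by rw [hΘ, hΘ, hxy]
    have h3 := Θ.injective h2
    exact Algebra.TensorProduct.includeRight_injective (R := F) (A := L) (B := A)
      (algebraMap F L).injective h3
  have hψinj : Function.Injective ψ := by
    intro x y hxy
    have h2 : θ' x = θ' y := by rw [← hψ, ← hψ, hxy]
    rw [hθ', hθ'] at h2
    apply hθinj
    have h3 : ∀ z, T * (S * mo.θ z * T) * S = mo.θ z := by
      intro z
      calc T * (S * mo.θ z * T) * S = (T * S) * mo.θ z * (T * S) := by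
            simp only [Matrix.mul_assoc]
        _ = mo.θ z := by rw [hTS, one_mul, mul_one]
    rw [← h3 x, ← h3 y, h2]
  have hfr : Module.finrank F A = Module.finrank F (Matrix ι ι F) := by
    rw [mo.dim, Module.finrank_matrix, Module.finrank_self]
    ring
  have hψsurj : Function.Surjective ψ :=
    (LinearMap.injective_iff_surjective_of_finrank_eq_finrank (f := ψ.toLinearMap) hfr).1 hψinj
  exact ⟨(AlgEquiv.ofBijective ψ ⟨hψinj, hψsurj⟩).trans
    (Matrix.reindexAlgEquiv F F (Fintype.equivFin ι))⟩

end Pool.Agent.MP12f267
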