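import Pool.Agent.Work.MP_12f267_p2.Interface

open TensorProduct

namespace Pool.Agent.MP12f267

universe u

theorem TWC_good {d : ℕ} (hd : d ∣ 4) : GoodDegree d := by
  have h : d = 1 ∨ d = 2 ∨ d = 4 := by
    have h1 : d ≤ 4 := Nat.le_of_dvd (by norm_num) hd
    interval_cases d <;> omega
  intro r hr
  refine ⟨0, ?_⟩
  rcases h with rfl | rfl | rfl
  · left
    simp
  · left
    have h1 : r % 2 = 1 := by
      rcases Nat.mod_two_eq_zero_or_one r with h2 | h2
      · exfalso
        have h3 : 2 ∣ Nat.gcd r 2 := Nat.dvd_gcd (Nat.dvd_of_mod_eq_zero h2) (dvd_refl 2)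
        rw [hr] at h3
        norm_num at h3
      · exact h2
    rw [pow_zero]
    omega
  · have h1 : r % 2 = 1 := by
      rcases Nat.mod_two_eq_zero_or_one r with h2 | h2
      · exfalso
        have h3 : 2 ∣ Nat.gcd r 4 := Nat.dvd_gcd (Nat.dvd_of_mod_eq_zero h2) (by norm_num)
        rw [hr] at h3
        norm_num at h3
      · exact h2
    rw [pow_zero]
    omega

/-- The tower of the composite extension. -/
def TWC_M {F K₁ K : Type u} [Field F] [Field K₁] [Field K] [Algebra F K₁] [Algebra K₁ K]
    [Algebra F K] [IsScalarTower F K₁ K] (M : ℕ → IntermediateField K₁ K) :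
    ℕ → IntermediateField F K
  | 0 => ⊥
  | i + 1 => (M i).restrictScalars F

theorem p_TWC : Stmt_TWC.{u} := by
  refine ⟨?_, ?_, ?_⟩
  · intro F _
    refine ⟨0, fun _ => ⊥, rfl, ?_, fun i hi => absurd hi (Nat.not_lt_zero i)⟩
    rw [eq_top_iff]
    intro x _
    exact IntermediateField.mem_bot.2 ⟨x, rfl⟩
  · intro F K₁ K _ _ _ _ _ _ _ hdiv ⟨k, M, h0, hk, hM⟩
    refine ⟨k + 1, TWC_M M, rfl, ?_, ?_⟩
    · show (M k).restrictScalars F = ⊤
      rw [hk]
      rfl
    · intro i hi
      cases i with
      | zero =>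
        refine ⟨bot_le, ?_⟩
        show IntermediateField.relfinrank ⊥ ((M 0).restrictScalars F) ∣ 4
        have h1 : (M 0).restrictScalars F = (IsScalarTower.toAlgHom F K₁ K).fieldRange := by
          rw [h0]
          ext x
          rw [IntermediateField.mem_restrictScalars, IntermediateField.mem_bot]
          exact Iff.rfl
        rw [IntermediateField.relfinrank_bot_left, h1]
        have h2 : Module.finrank F (IsScalarTower.toAlgHom F K₁ K).fieldRange =
            Module.finrank F K₁ :=
          (AlgEquiv.ofInjectiveField (IsScalarTower.toAlgHom F K₁ K)).toLinearEquiv.finrank_eq.symm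
        rw [h2]
        exact hdiv
      | succ i =>
        obtain ⟨h1, h2⟩ := hM i (by omega)
        exact ⟨fun x hx => h1 hx, h2⟩
  · intro F K _ _ _ ⟨k, M, h0, hk, hM⟩
    refine ⟨k, M, h0, hk, fun i hi => ?_⟩
    obtain ⟨h1, h2⟩ := hM i hi
    refine ⟨h1, Or.inl ?_⟩
    rw [IntermediateField.relfinrank_eq_finrank_of_le h1] at h2
    exact TWC_good h2

end Pool.Agent.MP12f267
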