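import Pool.Agent.Work.MP_12f267_p2.Interface

/-! Block TWI: a tower that kills the `2`-primary part of the class. -/

open TensorProduct

namespace Pool.Agent.MP12f267

universe u

/-- Base change in two steps, for an algebra that need not be commutative. -/
noncomputable def TWI_cancel (F K₁ K A : Type u) [Field F] [Field K₁] [Field K] [Algebra F K₁]
    [Algebra K₁ K] [Algebra F K] [IsScalarTower F K₁ K] [Ring A] [Algebra F A] :
    K ⊗[K₁] (K₁ ⊗[F] A) ≃ₐ[K] K ⊗[F] A :=
  AlgEquiv.symm <| AlgEquiv.ofLinearEquiv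
    (TensorProduct.AlgebraTensorModule.cancelBaseChange F K₁ K K A).symm
    (by simp [Algebra.TensorProduct.one_def]) <|
      LinearMap.map_mul_of_map_mul_tmul (fun _ _ _ _ ↦ by simp)

/-- The hypothesis passes to separable extensions whose degree is a power of two. -/
theorem TWI_bound (F K₁ : Type u) [Field F] [Field K₁] [Algebra F K₁] [FiniteDimensional F K₁]
    [Algebra.IsSeparable F K₁] (d j : ℕ) (hj : Module.finrank F K₁ = 2 ^ j)
    (h : PeriodTwoBound F d) : PeriodTwoBound K₁ d := by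
  intro E _ _ _ _ D _ _ _ _ k m hk hm hD
  let : Algebra F E := ((algebraMap K₁ E).comp (algebraMap F K₁)).toAlgebra
  have : IsScalarTower F K₁ E := IsScalarTower.of_algebraMap_eq fun _ => rfl
  have : FiniteDimensional F E := FiniteDimensional.trans F K₁ E
  have : Algebra.IsSeparable F E := Algebra.IsSeparable.trans F K₁ E
  have h1 : Module.finrank F E = 2 ^ (j + k) := by
    rw [← Module.finrank_mul_finrank F K₁ E, hj, hk, pow_add]
  exact h E D (j + k) m h1 hm hD

/-- Base change of a central algebra is central. -/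
theorem TWI_central (F K A : Type u) [Field F] [Field K] [Algebra F K] [Ring A] [Algebra F A]
    [Algebra.IsCentral F A] : Algebra.IsCentral K (K ⊗[F] A) := by
  classical
  let b := Module.Basis.ofVectorSpace F K
  let e := TensorProduct.equivFinsuppOfBasisLeft (N := A) b
  constructor
  intro y hy
  rw [Subalgebra.mem_center_iff] at hy
  have hcent : ∀ j, ∃ r : F, algebraMap F A r = e y j := by
    intro j
    have hc : e y j ∈ Subalgebra.center F A := by
      rw [Subalgebra.mem_center_iff]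
      intro a
      have h1 := congrArg (fun z => e z j) (hy (1 ⊗ₜ[F] a))
      have h2 : e ((1 ⊗ₜ[F] a) * y) j = a * e y j := simple_coord_left b a y j
      have h3 : e (y * (1 ⊗ₜ[F] a)) j = e y j * a := simple_coord_right b a y j
      rw [← h2, ← h3]
      exact h1
    have h4 := Algebra.IsCentral.out (K := F) (D := A) hc
    rw [Algebra.mem_bot] at h4
    exact h4
  choose r hr using hcent
  have hyk : y = (∑ j ∈ (e y).support, r j • b j) ⊗ₜ[F] (1 : A) := by
    have h5 : y = ∑ j ∈ (e y).support, b j ⊗ₜ[F] (e y j) := by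
      conv_lhs => rw [← e.symm_apply_apply y]
      rw [TensorProduct.equivFinsuppOfBasisLeft_symm_apply, Finsupp.sum]
    rw [TensorProduct.sum_tmul]
    refine h5.trans (Finset.sum_congr rfl fun j _ => ?_)
    rw [TensorProduct.smul_tmul, ← hr, Algebra.algebraMap_eq_smul_one]
  rw [Algebra.mem_bot]
  exact ⟨_, hyk.symm⟩

theorem p_TWI (hSTA : Stmt_STA.{u}) (hSTB : Stmt_STB.{u}) (hBMI : Stmt_BMI.{u})
    (hTWC : Stmt_TWC.{u}) : Stmt_TWI.{u} := by
  intro s
  induction s with
  | zero =>
    intro d hd F A _ _ _ _ _ _ _ n k hP hn hB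
    refine ⟨F, inferInstance, inferInstance, inferInstance, inferInstance, hTWC.1 F, ?_, ?_⟩
    · simp
    · have h1 : (2 : ℕ) ^ 0 * k = k := by simp
      rw [h1] at hB
      exact hBMI F A (F ⊗[F] A) F k (Algebra.TensorProduct.lid F A).symm hB
  | succ s ih =>
    intro d hd F A _ _ _ _ _ _ _ n k hP hn hB
    have h2 : (2 : ℕ) ^ (s + 1) * k = 2 * (2 ^ s * k) := by ring
    rw [h2] at hB
    -- the first step
    obtain ⟨L, _, _, _, _, ι, _, _, _, M, q, c, hM, hqi, hqm, hqd, hqs, hco⟩ :=
      hSTA F A n (2 ^ s * k) d hn hB (by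
        intro D _ _ _ _ k' hk' hD
        exact hP F D 0 k' (by simp) hk' hD)
    obtain ⟨K₁, _, _, _, _, hdeg, hB₁⟩ :=
      hSTB F A L ι M q c (2 ^ s * k) hM hqi hqm hqs hco
    obtain ⟨j, hj, hj2⟩ := (Nat.dvd_prime_pow Nat.prime_two).1 hqd
    have hdeg' : Module.finrank F K₁ = 2 ^ j := by rw [hdeg, hj2]
    have : Infinite K₁ := Infinite.of_injective (algebraMap F K₁) (algebraMap F K₁).injective
    have : IsSimpleRing (K₁ ⊗[F] A) := stmt_SIMPLE F K₁ A
    have : Algebra.IsCentral K₁ (K₁ ⊗[F] A) := TWI_central F K₁ A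
    have hn₁ : Module.finrank K₁ (K₁ ⊗[F] A) = n ^ 2 := by
      rw [Module.finrank_baseChange, hn]
    obtain ⟨K, _, _, _, _, hT, hdegK, hBK⟩ :=
      ih d hd K₁ (K₁ ⊗[F] A) n k (TWI_bound F K₁ d j hdeg' hP) hn₁ hB₁
    let : Algebra F K := ((algebraMap K₁ K).comp (algebraMap F K₁)).toAlgebra
    have : IsScalarTower F K₁ K := IsScalarTower.of_algebraMap_eq fun _ => rfl
    have : FiniteDimensional F K := FiniteDimensional.trans F K₁ K
    have : Algebra.IsSeparable F K := Algebra.IsSeparable.trans F K₁ K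
    refine ⟨K, inferInstance, inferInstance, inferInstance, inferInstance, ?_, ?_, ?_⟩
    · refine hTWC.2.1 F K₁ K ?_ hT
      rw [hdeg']
      have h4 : (4 : ℕ) = 2 ^ 2 := by norm_num
      rw [h4]
      exact pow_dvd_pow 2 (hj.trans hd)
    · rw [← Module.finrank_mul_finrank F K₁ K]
      have h5 : (2 : ℕ) ^ (d * (s + 1)) = 2 ^ d * 2 ^ (d * s) := by
        rw [← pow_add]
        congr 1
        ring
      rw [h5]
      exact mul_dvd_mul (by rw [hdeg]; exact hqd) hdegK
    · exact hBMI K (K ⊗[K₁] (K₁ ⊗[F] A)) (K ⊗[F] A) K k (TWI_cancel F K₁ K A) hBK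

end Pool.Agent.MP12f267
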