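import Pool.Agent.Work.MP_12f267_p2.Interface

/-! Block FBP (helper41): the product of a monomial module on a set with a good tower and of
monomial modules on sets of coprime sizes with good exponents. -/

open TensorProduct

namespace Pool.Agent.MP12f267

universe u

theorem stmt_FBP : Stmt_FBP.{u} := by
  intro G L X J Y _ _ _ _ _ _ _ _ _ _ _ _ c e r m hinf htow hper hgood hcop
  classical
  let π : (X × (∀ j, Y j)) →[G] X := { toFun := Prod.fst, map_smul' := fun g x => rfl }
  apply stmt_FIB G L (X × ∀ j, Y j) X π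
  · intro x
    exact ⟨(x, fun j => Classical.arbitrary (Y j)), rfl⟩
  · intro x
    haveI := faithful_restrict (L := L) (MulAction.stabilizer G x)
    let e' : ∀ j, Mono (MulAction.stabilizer G x) L (Y j) := fun j =>
      { c := fun g y => (e j).c (g : G) y
        a := fun g h => (e j).a (g : G) (h : G)
        c_ne := fun g y => (e j).c_ne (g : G) y
        a_ne := fun g h => (e j).a_ne (g : G) (h : G)
        mul := fun g h y => (e j).mul (g : G) (h : G) y }
    have hP : (Mono.pi e').BirTo (Mono.pi fun j => (e' j).zpow (r : ℤ)) :=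
      fin_PRODP (MulAction.stabilizer G x) L J Y e' r m (hinf.restrict _)
        (fun j => (hper j).restrict (MulAction.stabilizer G x)) hgood hcop
    let φ : Fib π x ≃ (∀ j, Y j) :=
      { toFun := fun z => z.1.2
        invFun := fun z => ⟨(x, z), rfl⟩
        left_inv := by
          rintro ⟨⟨x', z⟩, hz⟩
          have hz' : x' = x := hz
          subst hz'
          rfl
        right_inv := fun z => rfl }
    have hcard : Nat.card (Fib π x) = Nat.card (∀ j, Y j) := Nat.card_congr φ
    haveI : Finite (Fib π x) := Finite.of_equiv _ φ.symm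
    haveI : Nonempty (Fib π x) := ⟨φ.symm fun j => Classical.arbitrary (Y j)⟩
    have htr : Cohom (MulAction.stabilizer G x) L (fun _ _ => 1)
        (fun g h => c.a (g : G) (h : G)) :=
      c.trivial_on (MulAction.stabilizer G x) x (fun g => g.2)
    have h1 : ((c.prod (Mono.pi e)).fib π x).BirTo (Mono.pi e') := by
      apply stmt_UNIQM (MulAction.stabilizer G x) L (Fib π x) (∀ j, Y j) _ _ (hinf.restrict _)
        hcard
      have h2 := htr.symm.mul (Cohom.refl
        (fun g h : MulAction.stabilizer G x => (Mono.pi e).a (g : G) (h : G)))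
      refine Cohom.trans (Cohom.of_eq fun g h => ?_) (h2.trans (Cohom.of_eq fun g h => ?_))
      · rfl
      · rw [one_mul]
        rfl
    have h2 : (Mono.pi fun j => (e' j).zpow (r : ℤ)).BirTo
        (((c.prod (Mono.pi e)).zpow (r : ℤ)).fib π x) := by
      apply stmt_UNIQM (MulAction.stabilizer G x) L (∀ j, Y j) (Fib π x) _ _ (hinf.restrict _)
        hcard.symm
      have h3 := (htr.zpow (r : ℤ)).mul (Cohom.refl
        (fun g h : MulAction.stabilizer G x => (Mono.pi e).a (g : G) (h : G) ^ (r : ℤ)))
      refine Cohom.trans (Cohom.of_eq fun g h => ?_) (h3.trans (Cohom.of_eq fun g h => ?_))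
      · show ∏ j, (e j).a (g : G) (h : G) ^ (r : ℤ) =
          (1 : L) ^ (r : ℤ) * (∏ j, (e j).a (g : G) (h : G)) ^ (r : ℤ)
        rw [one_zpow, one_mul, Finset.prod_zpow]
      · show c.a (g : G) (h : G) ^ (r : ℤ) * (Mono.pi e).a (g : G) (h : G) ^ (r : ℤ) =
          (c.a (g : G) (h : G) * (Mono.pi e).a (g : G) (h : G)) ^ (r : ℤ)
        rw [mul_zpow]
    exact (h1.trans hP).trans h2
  · intro M _ _ _ _ R R' hR hR'
    haveI := faithful_of_gField G L M
    apply fin_TOW r G X htow M R R' hinf.map
    refine (hR.symm.zpow (r : ℤ)).trans (Cohom.trans (Cohom.of_eq fun g h => ?_) hR')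
    show algebraMap L M ((c.prod (Mono.pi e)).a g h) ^ (r : ℤ) =
      algebraMap L M ((c.prod (Mono.pi e)).a g h ^ (r : ℤ))
    rw [map_zpow₀]

end Pool.Agent.MP12f267
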