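import Pool.Agent.Work.MP_12f267_p2.Asm
import Pool.Agent.Work.MP_12f267_p2.B_CSA
import Pool.Agent.Work.MP_12f267_p2.B_REST
import Pool.Agent.Work.MP_12f267_p2.B_TRIV
import Pool.Agent.Work.MP_12f267_p2.B_KILL
import Pool.Agent.Work.MP_12f267_p2.B_STA
import Pool.Agent.Work.MP_12f267_p2.B_STB
import Pool.Agent.Work.MP_12f267_p2.B_BMI
import Pool.Agent.Work.MP_12f267_p2.B_TWC
import Pool.Agent.Work.MP_12f267_p2.B_TWI
import Pool.Agent.Work.MP_12f267_p2.B_MNO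
import Pool.Agent.Work.MP_12f267_p2.B_RTS
import Pool.Agent.Work.MP_12f267_p2.B_ARI
import Pool.Agent.Work.MP_12f267_p2.FBP

/-! The theorem PeriodTwo. -/

namespace Pool.Agent.MP12f267

universe u

theorem p2_KILL : Stmt_KILL.{u} := p_KILL p_TRIV

theorem p2_TWI : Stmt_TWI.{u} :=
  p_TWI (p_STA p_CSA p2_KILL) (p_STB p_REST p2_KILL) p_BMI p_TWC

theorem periodTwo : Stmt_P2.{u} :=
  asm p2_KILL p_REST p_TWC p2_TWI (p_RTS p_MNO) stmt_FBP p_ARI

end Pool.Agent.MP12f267
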