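import Pool.Agent.Work.MP_12f267_p2.Interface

/-! Assembly of the theorem PeriodTwo (helper2). -/

open TensorProduct

namespace Pool.Agent.MP12f267

universe u

lemma asm_cocyc_zpow {G L : Type u} [Group G] [Field L] [MulSemiringAction G L]
    {a : G → G → L} (h : IsCocyc a) (k : ℤ) : IsCocyc fun x y => a x y ^ k := by
  intro x y z
  show a x y ^ k * a (x * y) z ^ k = (x • (a y z ^ k)) * a x (y * z) ^ k
  rw [smul_zpow_field, ← mul_zpow, ← mul_zpow, h x y z]

theorem asm (hKILL : Stmt_KILL.{u}) (hREST : Stmt_REST.{u}) (hTWC : Stmt_TWC.{u})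
    (hTWI : Stmt_TWI.{u}) (hRTS : Stmt_RTS.{u}) (hFBP : Stmt_FBP.{u}) (hARI : Stmt_ARI) :
    Stmt_P2.{u} := by
  intro F A B _ _ _ _ _ _ _ _ _ _ _ d n t hd hbound ht0 ht hgood hdt hA hB hAB
  classical
  have hEX : Stmt_EX.{u} := stmt_EX
  have hFIN : Stmt_FIN.{u} := stmt_FIN stmt_DESC
  have hn : 0 < n := deg_pos hA
  rcases finite_or_infinite F with hF | hF
  · exact finite_case hEX hFIN F A B n hA hB
  obtain ⟨fA, hfA, hfA'⟩ := stmt_SEP F A n hA
  obtain ⟨fB, hfB, hfB'⟩ := stmt_SEP F B n hB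
  obtain ⟨L₀, _, _, _, _, -, -, hsplit⟩ := stmt_ENLB F F (Fin 2)
    ![minpoly F fA, minpoly F fB] (fun j => by fin_cases j <;> simp [hfA, hfB])
  have hsA : ((minpoly F fA).map (algebraMap F L₀)).Splits := hsplit 0
  have hsB : ((minpoly F fB).map (algebraMap F L₀)).Splits := hsplit 1
  have := finite_roots F L₀ (hfA.ne_zero)
  have := finite_roots F L₀ (hfB.ne_zero)
  have := Fintype.ofFinite (Roots F L₀ (minpoly F fA))
  have := Fintype.ofFinite (Roots F L₀ (minpoly F fB))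
  obtain ⟨cA, hmA⟩ := stmt_MODEL stmt_SIMPLE F A L₀ n fA hn hA hfA hfA' hsA
  obtain ⟨cB, hmB⟩ := stmt_MODEL stmt_SIMPLE F B L₀ n fB hn hB hfB hfB' hsB
  have hcA := Model.card_eq hmA hA
  have hcB := Model.card_eq hmB hB
  have : Nonempty (Roots F L₀ (minpoly F fA)) := Fintype.card_pos_iff.mp (by omega)
  have : Nonempty (Roots F L₀ (minpoly F fB)) := Fintype.card_pos_iff.mp (by omega)
  -- exponent prime to `n`
  obtain ⟨⟨r, hr⟩, ⟨s, hs⟩⟩ := hAB
  have hab := stmt_BRAUER F L₀ A B _ _ cA.toPMod cB.toPMod r hmA hmB hr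
  have hba := stmt_BRAUER F L₀ B A _ _ cB.toPMod cA.toPMod s hmB hmA hs
  have hper := (stmt_DIMM (L₀ ≃ₐ[F] L₀) L₀ _ cA).2
  rw [Nat.card_eq_fintype_card, hcA] at hper
  obtain ⟨r', hr', hab'⟩ := stmt_ORD (L₀ ≃ₐ[F] L₀) L₀ cA.a cB.a r s n cA.a_ne cB.a_ne hn hab hba
    hper
  have hinf₀ : InfFix (L₀ ≃ₐ[F] L₀) L₀ := infFix_gal F L₀
  -- the period
  have hperm : Cohom (L₀ ≃ₐ[F] L₀) L₀ (fun _ _ => 1) (fun g h => cA.a g h ^ (t : ℤ)) := by
    rcases ht with hm | hm
    · rw [hm]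
      exact hper
    · have h1 := stmt_BRAUER F L₀ A F _ _ cA.toPMod (trivMod (L₀ ≃ₐ[F] L₀) L₀) t hmA
        (model_base F L₀) hm
      exact h1.symm
  have hperg : Cohom (L₀ ≃ₐ[F] L₀) L₀ (fun _ _ => 1)
      (fun g h => cA.a g h ^ ((Nat.gcd n t : ℕ) : ℤ)) := by
    rw [Nat.gcd_eq_gcd_ab]
    exact Cohom.one_zpow_comb cA.a_ne hper hperm _ _
  -- the odd primes
  let J : Type := {p : ℕ // p ∈ n.primeFactors.erase 2}
  have hJp : ∀ j : J, (j : ℕ).Prime := fun j =>
    Nat.prime_of_mem_primeFactors (Finset.mem_of_mem_erase j.2)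
  have hJ2 : ∀ j : J, (j : ℕ) ≠ 2 := fun j => Finset.ne_of_mem_erase j.2
  have hJn : ∀ j : J, (j : ℕ) ∣ n := fun j =>
    Nat.dvd_of_mem_primeFactors (Finset.mem_of_mem_erase j.2)
  obtain ⟨hari1, ⟨k₂, hk₂1, hk₂2⟩, hari3⟩ := hARI n hn J (fun j => (j : ℕ))
    Subtype.val_injective (fun j => ⟨hJp j, hJ2 j⟩) (fun q hq hq2 hqn =>
      ⟨⟨q, Finset.mem_erase.mpr ⟨hq2, Nat.mem_primeFactors.mpr ⟨hq, hqn, hn.ne'⟩⟩⟩, rfl⟩)
  -- the field `K` killing the 2-primary part
  have hkillk : Cohom (L₀ ≃ₐ[F] L₀) L₀ (fun _ _ => 1)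
      (fun g h => cA.a g h ^ ((2 ^ t.factorization 2 * k₂ : ℕ) : ℤ)) := by
    have hdv : Nat.gcd n t ∣ 2 ^ t.factorization 2 * k₂ := by
      refine (gcd_dvd_part n t 2 hn ht0 Nat.prime_two).trans ?_
      rw [mul_comm]
      exact Nat.mul_dvd_mul_left _ hk₂2
    have h6 := Cohom.zpow_congr (r := 0) (s := ((2 ^ t.factorization 2 * k₂ : ℕ) : ℤ)) cA.a_ne
      hperg (by rw [sub_zero]; exact Int.natCast_dvd_natCast.mpr hdv)
    exact Cohom.trans (Cohom.of_eq fun g h => by simp) h6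
  have hkill : IsBrauerMultiple F A F (2 ^ t.factorization 2 * k₂) :=
    hKILL F L₀ A _ cA.toPMod _ hmA hkillk
  obtain ⟨K, _, _, _, _, hfour, hKdeg, hKkill⟩ := hTWI (t.factorization 2) d hd F A n k₂ hbound hA
    hkill
  have hKn : Module.finrank F K ∣ 2 ^ n.factorization 2 := hKdeg.trans (Nat.pow_dvd_pow 2 hdt)
  obtain ⟨α, hα⟩ := Field.exists_primitive_element F K
  have hαsep : (minpoly F α).Separable := Algebra.IsSeparable.isSeparable F α
  have hαint : IsIntegral F α := Algebra.IsIntegral.isIntegral α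
  -- primary modules
  have hmod : ∀ j : J, ∃ k : ℤ, ((((j : ℕ) ^ n.factorization j : ℕ)) : ℤ) ∣ k - 1 ∧
      ((n / (j : ℕ) ^ n.factorization j : ℕ) : ℤ) ∣ k ∧
      HasMod (L₀ ≃ₐ[F] L₀) L₀ (fun g h => cA.a g h ^ k) ((j : ℕ) ^ n.factorization j) := by
    intro j
    obtain ⟨k, hk1, hk2⟩ := exists_exponent n j hn (hJp j)
    refine ⟨k, hk1, hk2, ?_⟩
    have hdvd : (j : ℕ) ^ n.factorization j * (n / (j : ℕ) ^ n.factorization j) = n :=
      Nat.mul_div_cancel' (Nat.ordProj_dvd n j)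
    have hH := (stmt_DIMM (L₀ ≃ₐ[F] L₀) L₀ _ cA).1
    rw [Nat.card_eq_fintype_card, hcA, ← hdvd] at hH
    refine stmt_PRIM stmt_DIM (stmt_SUB stmt_DENS) (L₀ ≃ₐ[F] L₀) L₀ cA.a j (n.factorization j)
      (n / (j : ℕ) ^ n.factorization j) k hinf₀ cA.a_ne (hJp j) ?_ ?_ hH hk1 hk2
    · exact Nat.not_dvd_ordCompl (hJp j) hn.ne'
    · exact Nat.ordCompl_pos _ hn.ne'
  choose k hk1 hk2 hkM using hmod
  choose ι' hι'1 hι'2 M' hM'card hM'coh using hkM
  have hne' : ∀ j : J, Nonempty (ι' j) := fun j => Fintype.card_pos_iff.mp (by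
    rw [hM'card]; exact pow_pos (hJp j).pos _)
  have hEN : ∀ j : J, ∃ χ : Polynomial F, χ.Separable ∧
      ∀ (L : Type u) [Field L] [Algebra F L] [FiniteDimensional F L] [IsGalois F L]
        [Algebra L₀ L] [IsScalarTower F L₀ L], (χ.map (algebraMap F L)).Splits →
        ∃ (X : Type u) (_ : MulAction (L ≃ₐ[F] L) X) (_ : Finite X)
          (c : Mono (L ≃ₐ[F] L) L X), Nat.card X = Fintype.card (ι' j) ∧
            Cohom (L ≃ₐ[F] L) L ((M' j).inflGal L).a c.a := by
    intro j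
    have := hne' j
    exact stmt_ENLA F L₀ (ι' j) (M' j)
  choose χ hχ hχ2 using hEN
  obtain ⟨L, _, _, _, _, _, _, hsp⟩ := stmt_ENLB F L₀ (Option J)
    (fun o => Option.elim o (minpoly F α) χ) (fun o => by
      cases o with
      | none => exact hαsep
      | some j => exact hχ j)
  have hX : ∀ j : J, ∃ (X : Type u) (_ : MulAction (L ≃ₐ[F] L) X) (_ : Finite X)
          (c : Mono (L ≃ₐ[F] L) L X), Nat.card X = Fintype.card (ι' j) ∧
            Cohom (L ≃ₐ[F] L) L ((M' j).inflGal L).a c.a := fun j => hχ2 j L (hsp (some j))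
  have hspα : ((minpoly F α).map (algebraMap F L)).Splits := hsp none
  choose X hXact hXfin c hXcard hXcoh using hX
  have hXcard2 : ∀ j, Nat.card (X j) = (j : ℕ) ^ n.factorization j := fun j => by
    rw [hXcard, hM'card]
  have hXne : ∀ j, Nonempty (X j) := fun j => by
    have : 0 < Nat.card (X j) := by rw [hXcard2]; exact pow_pos (hJp j).pos _
    exact (Nat.card_pos_iff.mp this).1
  have hinf : InfFix (L ≃ₐ[F] L) L := infFix_gal F L
  have hmA' := stmt_MINF F L₀ L A _ cA.toPMod hmA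
  have hmB' := stmt_MINF F L₀ L B _ cB.toPMod hmB
  apply finish hEX hFIN F L A B _ _ _ _ hmA' hmB'
  -- the embedding of `K`
  obtain ⟨φ⟩ : Nonempty (K →ₐ[F] L) :=
    IntermediateField.nonempty_algHom_of_adjoin_splits (S := {α})
      (fun x hx => by rw [Set.mem_singleton_iff.mp hx]; exact ⟨hαint, hspα⟩) hα
  letI : Algebra K L := φ.toRingHom.toAlgebra
  have hKL : IsScalarTower F K L := IsScalarTower.of_algebraMap_eq fun x => (φ.commutes x).symm
  have : FiniteDimensional K L := FiniteDimensional.right F K L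
  have : IsGalois K L := IsGalois.tower_top_of_isGalois F K L
  -- the class of `k₂ A` is trivial over `K`
  have hinfl_ne : ∀ g h, inflC L cA.a g h ≠ 0 := fun g h => by
    unfold inflC
    simpa using cA.a_ne _ _
  have hcoc : IsCocyc (inflC L cA.a) := (cA.toPMod.inflGal L).cocycle
  have hKcoh : Cohom (L ≃ₐ[K] L) L (fun _ _ => 1) (fun g h =>
      (fun x y => inflC L cA.a x y ^ (k₂ : ℤ)) (g.restrictScalars F) (h.restrictScalars F)) := by
    have h1 := stmt_BRAUER K L (K ⊗[F] A) K _ _ ((cA.toPMod.inflGal L).restr K)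
      (trivMod (L ≃ₐ[K] L) L) k₂ (hREST F K L A _ (cA.toPMod.inflGal L) hmA') (model_base K L)
      hKkill
    exact h1.symm
  obtain ⟨c₂, hc₂⟩ := hRTS F K L α (fun x y => inflC L cA.a x y ^ (k₂ : ℤ)) hα
    (asm_cocyc_zpow hcoc _) (fun g h => zpow_ne_zero _ (hinfl_ne g h)) hKcoh
  have hfin2 : Finite (Roots F L (minpoly F α)) := finite_roots F L hαsep.ne_zero
  have hcard2 : Nat.card (Roots F L (minpoly F α)) = Module.finrank F K := by
    rw [card_roots F L hαsep hspα]
    exact (Field.primitive_element_iff_minpoly_natDegree_eq F α).mp hα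
  have hKpos : 0 < Module.finrank F K := Module.finrank_pos
  have hne2 : Nonempty (Roots F L (minpoly F α)) := by
    apply (Nat.card_pos_iff.mp _).1
    rw [hcard2]
    exact hKpos
  have hcopK : r'.Coprime (Module.finrank F K) :=
    Nat.Coprime.coprime_dvd_right (hKn.trans (Nat.ordProj_dvd n 2)) hr'
  have htow : HasTower r' (L ≃ₐ[F] L) (Roots F L (minpoly F α)) :=
    stmt_TOWF F K L α r' hα hspα (hTWC.2.2 F K hfour) hcopK
  -- the classes of the odd parts
  have h1 : ∀ j : J, Cohom (L ≃ₐ[F] L) L (inflC L fun g h => cA.a g h ^ k j) (c j).a := by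
    intro j
    exact ((hM'coh j).symm.infl (L := L)).trans (hXcoh j)
  -- the main relation
  have hmain : (c₂.prod (Mono.pi c)).BirTo ((c₂.prod (Mono.pi c)).zpow (r' : ℤ)) := by
    apply hFBP (L ≃ₐ[F] L) L _ J X c₂ c r' (fun j => (j : ℕ) ^ t.factorization j) hinf htow
    · intro j
      have hdd : (((Nat.gcd n t : ℕ)) : ℤ) ∣
          k j * (((j : ℕ) ^ t.factorization j : ℕ) : ℤ) := by
        have h5 : (((Nat.gcd n t : ℕ)) : ℤ) ∣ (((n / (j : ℕ) ^ n.factorization j : ℕ) : ℤ) *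
            (((j : ℕ) ^ t.factorization j : ℕ) : ℤ)) := by
          rw [← Nat.cast_mul]
          exact Int.natCast_dvd_natCast.mpr (gcd_dvd_part n t j hn ht0 (hJp j))
        exact h5.trans (mul_dvd_mul_right (hk2 j) _)
      have h6 := Cohom.zpow_congr (r := 0)
        (s := k j * (((j : ℕ) ^ t.factorization j : ℕ) : ℤ)) cA.a_ne hperg
        (by rw [sub_zero]; exact hdd)
      have h7 := h6.infl (L := L)
      refine Cohom.trans (Cohom.of_eq fun g h => ?_)
        (h7.trans (Cohom.trans (Cohom.of_eq fun g h => ?_)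
          ((h1 j).zpow (((j : ℕ) ^ t.factorization j : ℕ) : ℤ))))
      · unfold inflC
        simp
      · unfold inflC
        rw [map_zpow₀, map_zpow₀, zpow_mul]
    · intro j
      rw [hXcard2]
      refine goodFor_part r' j _ _ (hJp j) ?_ ⟨_, rfl⟩ (hgood j _ (hJp j) (hJ2 j)
        (Nat.ordProj_dvd t j) (Nat.pow_succ_factorization_not_dvd ht0.ne' (hJp j)))
      intro hdvd
      exact (hJp j).one_lt.ne' (Nat.eq_one_of_dvd_one (by
        have := Nat.dvd_gcd hdvd (hJn j)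
        rwa [hr'] at this))
    · intro i j hij
      rw [hXcard2, hXcard2]
      exact Nat.Coprime.pow _ _ ((Nat.coprime_primes (hJp i) (hJp j)).mpr
          fun h => hij (Subtype.ext h))
  have := Fintype.ofFinite (Roots F L (minpoly F α))
  have := Fintype.ofFinite (∀ j, X j)
  have hperL := hper.infl (L := L)
  -- the class of the product
  have hclass : Cohom (L ≃ₐ[F] L) L (c₂.prod (Mono.pi c)).a (inflC L cA.a) := by
    have h2 : Cohom (L ≃ₐ[F] L) L (fun g h => inflC L cA.a g h ^ (∑ j, k j))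
        (fun g h => ∏ j, (c j).a g h) := by
      have h3 : ∀ S : Finset J, Cohom (L ≃ₐ[F] L) L
          (fun g h => inflC L cA.a g h ^ (∑ j ∈ S, k j)) (fun g h => ∏ j ∈ S, (c j).a g h) := by
        intro S
        induction S using Finset.induction_on with
        | empty =>
          apply Cohom.of_eq
          intro g h
          simp
        | insert j S hj ih =>
          refine Cohom.trans (Cohom.of_eq fun g h => ?_)
            (((h1 j).mul ih).trans (Cohom.of_eq fun g h => ?_))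
          · have hne : inflC L cA.a g h ≠ 0 := hinfl_ne g h
            rw [Finset.sum_insert hj, zpow_add₀ hne]
            congr 1
            unfold inflC
            rw [map_zpow₀]
          · rw [Finset.prod_insert hj]
      exact h3 Finset.univ
    have h4 := Cohom.zpow_congr (G := L ≃ₐ[F] L) (L := L) (a := inflC L cA.a) (n := n) (r := 1)
      (s := (k₂ : ℤ) + ∑ j, k j) hinfl_ne ?_ (hari3 k k₂ (fun j => ⟨hk1 j, hk2 j⟩) hk₂1
        (Int.natCast_dvd_natCast.mpr hk₂2))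
    · have h5 := hc₂.mul h2
      refine Cohom.symm ?_
      refine Cohom.trans (Cohom.of_eq fun g h => ?_) (h4.trans (Cohom.trans
        (Cohom.of_eq fun g h => ?_) h5))
      · rw [zpow_one]
      · rw [zpow_add₀ (hinfl_ne g h)]
    · refine Cohom.trans (Cohom.of_eq fun g h => ?_) (hperL.trans (Cohom.of_eq fun g h => ?_))
      · unfold inflC; simp
      · unfold inflC; rw [map_zpow₀]
  have hcardle : Fintype.card (Roots F L (minpoly F α) × (∀ j, X j)) ≤
      Fintype.card (Roots F L₀ (minpoly F fA)) := by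
    rw [hcA, Fintype.card_prod, ← Nat.card_eq_fintype_card, ← Nat.card_eq_fintype_card, hcard2,
      Nat.card_pi]
    calc Module.finrank F K * ∏ j, Nat.card (X j)
        ≤ 2 ^ n.factorization 2 * ∏ j, Nat.card (X j) :=
          Nat.mul_le_mul_right _ (Nat.le_of_dvd (pow_pos (by norm_num) _) hKn)
      _ = 2 ^ n.factorization 2 * ∏ j : J, (j : ℕ) ^ n.factorization (j : ℕ) :=
          congrArg _ (Finset.prod_congr rfl fun j _ => hXcard2 j)
      _ = n := hari1
  have hzc : Cohom (L ≃ₐ[F] L) L ((c₂.prod (Mono.pi c)).zpow (r' : ℤ)).a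
      (cB.toPMod.inflGal L).a := by
    refine (hclass.zpow (r' : ℤ)).trans ?_
    refine Cohom.trans (Cohom.of_eq fun g h => ?_) (hab'.infl (L := L))
    unfold inflC
    rw [map_zpow₀]
  exact (stmt_SUM (stmt_SUB stmt_DENS)) (L ≃ₐ[F] L) L _ _ _ _ (c₂.prod (Mono.pi c)).toPMod
    ((c₂.prod (Mono.pi c)).zpow (r' : ℤ)).toPMod (cA.toPMod.inflGal L) (cB.toPMod.inflGal L) hinf
    hmain.toPMod rfl (by rw [hcA, hcB]) hcardle hclass hzc

end Pool.Agent.MP12f267
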