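import Pool.Agent.Work.MP_12f267_p2.Interface

/-! Block MNO: a class that is trivial on a stabiliser is the class of a monomial module. -/

open TensorProduct

namespace Pool.Agent.MP12f267

universe u

lemma MNO_cocyc {G L : Type u} [Group G] [Field L] [MulSemiringAction G L] {b : G → G → L}
    (hc : IsCocyc b) {ν : G → L} (hν : ∀ g, ν g ≠ 0) :
    IsCocyc (fun g h => b g h * ν (g * h) / (ν g * g • ν h)) := by
  intro g h k
  show b g h * ν (g * h) / (ν g * g • ν h) *
      (b (g * h) k * ν (g * h * k) / (ν (g * h) * (g * h) • ν k)) =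
    g • (b h k * ν (h * k) / (ν h * h • ν k)) *
      (b g (h * k) * ν (g * (h * k)) / (ν g * g • ν (h * k)))
  have e := hc g h k
  have n1 := hν g
  have n2 := smul_ne_zero_field g (hν h)
  have n3 := hν (g * h)
  have n4 := smul_ne_zero_field (g * h) (hν k)
  have n5 := smul_ne_zero_field g (hν (h * k))
  rw [smul_div_field, smul_mul', smul_mul', ← mul_smul g h (ν k), mul_assoc g h k,
    div_mul_div_comm, div_mul_div_comm,
    div_eq_div_iff (mul_ne_zero (mul_ne_zero n1 n2) (mul_ne_zero n3 n4))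
      (mul_ne_zero (mul_ne_zero n2 n4) (mul_ne_zero n1 n5))]
  linear_combination (ν (g * h) * ν (g * (h * k)) * (g • ν h) * ((g * h) • ν k) * ν g *
    (g • ν (h * k))) * e

theorem p_MNO : Stmt_MNO.{u} := by
  classical
  intro G L X _ _ _ _ _ b x hc hb ht
  obtain ⟨μ, hμ, hμ'⟩ := ht
  let Q : Subgroup G := MulAction.stabilizer G x
  let ν : G → L := fun g => if h : g ∈ Q then μ ⟨g, h⟩ else 1
  have hν : ∀ g, ν g ≠ 0 := by
    intro g
    by_cases h : g ∈ Q
    · simp only [ν, dif_pos h]
      exact hμ _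
    · simp only [ν, dif_neg h]
      exact one_ne_zero
  have hνQ : ∀ g : Q, ν g = μ g := fun g => dif_pos g.2
  let b' : G → G → L := fun g h => b g h * ν (g * h) / (ν g * g • ν h)
  have hb' : ∀ g h, b' g h ≠ 0 := fun g h =>
    div_ne_zero (mul_ne_zero (hb _ _) (hν _)) (mul_ne_zero (hν _) (smul_ne_zero_field g (hν _)))
  have hab : Cohom G L b' b := by
    refine ⟨ν, hν, fun g h => ?_⟩
    show b g h * ν (g * h) = b g h * ν (g * h) / (ν g * g • ν h) * (ν g * g • ν h)
    rw [div_mul_cancel₀]
    exact mul_ne_zero (hν _) (smul_ne_zero_field g (hν _))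
  have hcb : IsCocyc b' := MNO_cocyc hc hν
  have hbQ : ∀ p q : Q, b' p q = 1 := by
    intro p q
    show b p q * ν ((p : G) * q) / (ν p * (p : G) • ν q) = 1
    have e : b (p : G) (q : G) * μ (p * q) = 1 * (μ p * (p : G) • μ q) := hμ' p q
    have e2 : ν ((p : G) * q) = μ (p * q) := hνQ (p * q)
    rw [hνQ p, hνQ q, e2, e, one_mul]
    exact div_self (mul_ne_zero (hμ _) (smul_ne_zero_field (p : G) (hμ _)))
  obtain ⟨c, hca⟩ := exists_mono_quotient Q hcb hb' hbQ
  -- the equivariant bijection
  have hbij : Function.Bijective (MulAction.ofQuotientStabilizer G x) := by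
    refine ⟨MulAction.injective_ofQuotientStabilizer G x, fun y => ?_⟩
    obtain ⟨g, hg⟩ := MulAction.exists_smul_eq G x y
    exact ⟨(g : G ⧸ MulAction.stabilizer G x), by
      rw [MulAction.ofQuotientStabilizer_mk]; exact hg⟩
  let E : G ⧸ MulAction.stabilizer G x ≃ X := Equiv.ofBijective _ hbij
  have hE : ∀ (g : G) (y : G ⧸ MulAction.stabilizer G x), E (g • y) = g • E y := fun g y =>
    MulAction.ofQuotientStabilizer_smul G x g y
  have hE' : ∀ (g : G) (y : X), E.symm (g • y) = g • E.symm y := by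
    intro g y
    apply E.injective
    rw [hE, E.apply_symm_apply, E.apply_symm_apply]
  refine ⟨⟨fun g y => c.c g (E.symm y), b', fun g y => c.c_ne _ _, hb', fun g h y => ?_⟩,
    hab.symm⟩
  have e1 := c.mul g h (E.symm y)
  rw [hca] at e1
  show c.c g (E.symm (h • y)) * (g • c.c h (E.symm y)) = b' g h * c.c (g * h) (E.symm y)
  rw [hE']
  exact e1

end Pool.Agent.MP12f267
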