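import Pool.Agent.Work.MP_12f267_ag.Basic

/-! The hypothesis of the theorem PeriodTwo. -/

namespace Pool.Agent.MP12f267

universe u

/-- Over every separable extension `E` of `F` whose degree is a power of two, each central
division algebra `D` of degree `m` with `2[D] = 0` in the Brauer group of `E` has degree dividing
`2 ^ d`. -/
def PeriodTwoBound (F : Type u) [Field F] (d : ℕ) : Prop :=
  ∀ (E : Type u) [Field E] [Algebra F E] [FiniteDimensional F E] [Algebra.IsSeparable F E]
    (D : Type u) [DivisionRing D] [Algebra E D] [Algebra.IsCentral E D] [FiniteDimensional E D]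
    (k m : ℕ), Module.finrank F E = 2 ^ k → Module.finrank E D = m ^ 2 →
    IsBrauerMultiple E D E 2 → m ∣ 2 ^ d

/-- All powers of odd primes exactly dividing `t` are good degrees. -/
def GoodOddPart (t : ℕ) : Prop :=
  ∀ p e : ℕ, p.Prime → p ≠ 2 → p ^ e ∣ t → ¬ p ^ (e + 1) ∣ t → GoodDegree (p ^ e)

end Pool.Agent.MP12f267
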