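import Pool.Agent.Work.MP_12f267_ag.Final
import Pool.Agent.Work.MP_12f267_p2.Defs

/-! Statements of the blocks of the theorem PeriodTwo (Amitsur problem over fields where algebras
of exponent two have small degree). The library is `Pool/Agent/Work/MP_12f267_ag/*`, imported
through `Final`: `Defs` (PMod, Mono, Model, Roots, HasTower), `Interface` (the statements `Stmt_X`),
all of them proved (`stmt_DESC stmt_DENS stmt_UNIQ stmt_ISO stmt_ISOCOH stmt_BRIDGE stmt_UNIQM
stmt_DIM stmt_DIMM stmt_ORD stmt_EX stmt_INV stmt_FIB stmt_SIMPLE stmt_SEP stmt_BRAUER stmt_MINF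
stmt_ENLA stmt_ENLB stmt_TOWF`, `stmt_MODEL stmt_SIMPLE`, `stmt_CMP stmt_ISOCOH`,
`stmt_SUB stmt_DENS`, `stmt_SUM (stmt_SUB stmt_DENS)`, `fin_TOW`, `fin_PRODP` below) and usable in
every block without being hypotheses. -/

open TensorProduct

namespace Pool.Agent.MP12f267

universe u

theorem fin_PRODP : Stmt_PRODP.{u} :=
  stmt_PRODP (stmt_GDP stmt_INV (stmt_DBL stmt_DENS) stmt_UNIQM) stmt_FIB stmt_UNIQM stmt_DIMM

/-- Restriction of a projective module of `Gal(L/F)` to `Gal(L/E)`. -/
def PMod.restr {F L ι : Type u} [Field F] [Field L] [Algebra F L] [Fintype ι] [DecidableEq ι]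
    (M : PMod (L ≃ₐ[F] L) L ι) (E : Type u) [Field E] [Algebra F E] [Algebra E L]
    [IsScalarTower F E L] : PMod (L ≃ₐ[E] L) L ι where
  P g := M.P (g.restrictScalars F)
  a g h := M.a (g.restrictScalars F) (h.restrictScalars F)
  a_ne _ _ := M.a_ne _ _
  det_ne _ := M.det_ne _
  mul g h := M.mul (g.restrictScalars F) (h.restrictScalars F)

/-- The product of two monomial modules on the product set. -/
def Mono.prod {G L X Y : Type u} [Group G] [Field L] [MulSemiringAction G L] [MulAction G X]
    [MulAction G Y] (c : Mono G L X) (e : Mono G L Y) : Mono G L (X × Y) where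
  c g x := c.c g x.1 * e.c g x.2
  a g h := c.a g h * e.a g h
  c_ne g x := mul_ne_zero (c.c_ne g x.1) (e.c_ne g x.2)
  a_ne g h := mul_ne_zero (c.a_ne g h) (e.a_ne g h)
  mul g h x := by
    have h1 := c.mul g h x.1
    have h2 := e.mul g h x.2
    show c.c g (h • x.1) * e.c g (h • x.2) * (g • (c.c h x.1 * e.c h x.2)) = _
    rw [smul_mul']
    calc c.c g (h • x.1) * e.c g (h • x.2) * ((g • c.c h x.1) * (g • e.c h x.2))
        = (c.c g (h • x.1) * (g • c.c h x.1)) * (e.c g (h • x.2) * (g • e.c h x.2)) := by ring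
      _ = _ := by rw [h1, h2]; ring

/-- `K / F` has a tower of intermediate fields whose steps have degree dividing `4`. -/
def FourTower (F K : Type u) [Field F] [Field K] [Algebra F K] : Prop :=
  ∃ (k : ℕ) (M : ℕ → IntermediateField F K), M 0 = ⊥ ∧ M k = ⊤ ∧
    ∀ i < k, M i ≤ M (i + 1) ∧ IntermediateField.relfinrank (M i) (M (i + 1)) ∣ 4

/-- Block CSA. An algebra with a model is central simple.

Proof. `θ : A → M_ι(L)` has `L`-span everything and `dim_F A = card ι ^ 2 = dim_L M_ι(L)`, so `θ`
maps an `F`-basis `b` of `A` (indexed by `Fin (card ι ^ 2)`; `A` is finite-dimensional since its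
rank is positive) to a spanning family of the right size, i.e. to an `L`-basis
(`basisOfTopLeSpanOfCardEqFinrank`), in particular `θ` is injective. CENTRAL: let `z` be central in
`A`. `θ z` commutes with the range of `θ`, hence with its `L`-span, all matrices, so
`θ z = λ • 1` for some `λ : L` (`Matrix.mem_range_scalar_of_commute_single` or the lemma
`scalar_of_commute` of `CMP.lean`). If `z` is not in `F 1` then `1, z` are `F`-linearly
independent, hence `θ 1 = 1` and `θ z` are `L`-linearly independent (extend to a basis, or: write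
`z = Σ z_i b_i`, `1 = Σ e_i b_i`; `θ z = λ θ 1` gives `z_i = λ e_i` in `L` for all `i` as the
`θ b_i` are an `L`-basis; some `e_i ≠ 0`, so `λ = z_i / e_i` comes from `F`, and injectivity gives
`z = (z_i / e_i) 1`). SIMPLE: let `I` be a two-sided ideal of `A`, and `J` the `L`-span of `θ(I)`;
`J` is stable under left and right multiplication by `θ(A)`, hence by all matrices, so `J` is a
two-sided ideal of the simple ring `M_ι(L)`: `J = 0` (then `I = 0` by injectivity) or `J = ⊤`,
then `dim_F I ≥ dim_L J = dim_F A` (a basis of `I` gives a spanning family of `J`) so `I = A`.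
Nontrivial: `card ι > 0`. -/
def Stmt_CSA : Prop :=
  ∀ (F L A ι : Type u) [Field F] [Field L] [Algebra F L] [Ring A] [Algebra F A]
    [Fintype ι] [DecidableEq ι] [Nonempty ι]
    (M : PMod (L ≃ₐ[F] L) L ι), Nonempty (Model F L A M) → Algebra.IsCentral F A ∧ IsSimpleRing A

/-- Block REST. Restriction of a model to an intermediate field.

Proof. `θ' : E ⊗[F] A →ₐ[E] Matrix ι ι L` is `Algebra.TensorProduct.lift (Algebra.ofId E _) θ _`
(with `θ` an `F`-algebra map), `θ' (e ⊗ₜ a) = e • θ a`; the scalars commute with everything. Its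
range contains the range of `θ` (elements `1 ⊗ₜ a`), so its span is everything;
`Module.finrank E (E ⊗[F] A) = Module.finrank F A` (`Module.finrank_baseChange`);
`θ'(x) P_g = P_g g(θ' x)` is additive in `x`, and for `x = e ⊗ₜ a` it is `e •` the identity of
`M` at `a` since `g e = e` (`g.commutes`). -/
def Stmt_REST : Prop :=
  ∀ (F E L A ι : Type u) [Field F] [Field E] [Field L] [Algebra F E] [Algebra E L] [Algebra F L]
    [IsScalarTower F E L] [Ring A] [Algebra F A] [Fintype ι] [DecidableEq ι]
    (M : PMod (L ≃ₐ[F] L) L ι), Nonempty (Model F L A M) →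
    Nonempty (Model E L (E ⊗[F] A) (M.restr E))

/-- Block TRIV. An algebra whose class is trivial is a matrix algebra.

Proof. Let `M₀ : PMod G L ι` be the module with `P = 1`, `a = 1` (`G = Gal(L/F)`; same proof as
for `trivMod` in `AsmP.lean`). `stmt_UNIQ` for `M, M₀` (`infFix_gal F L`, the group is finite and
acts faithfully; use the `ν` of the hypothesis, after inverting it: `Cohom.symm`) gives
matrices `S, T` with `S T = T S = 1` and `S^g = ν_g • (S * P_g)` (`M₀.P g = 1`). Put
`θ'(x) = S * θ x * T`. As `T^g S^g = 1` and `θ(x) P_g = P_g (θ x)^g`: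
`(θ' x)^g S^g = S^g (θ x)^g = ν_g S P_g (θ x)^g = ν_g S θ(x) P_g = ν_g (S θ(x) T) S P_g = θ'(x) S^g`,
so `(θ' x)^g = θ' x` for all `g`: all entries of `θ' x` are fixed by `G`, so they come from `F`
(`IsGalois F L`, `FiniteDimensional F L`: `IsGalois.mem_bot_iff_fixed`). So `θ'` is
`algebraMap`-mapped from an algebra homomorphism `A →ₐ[F] Matrix ι ι F`, injective since the span
of the range of `θ` is everything and the dimensions agree (see CSA), or because `A` is simple;
same dimension `card ι ^ 2`, so bijective; reindex by `Fintype.equivFin`. -/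
def Stmt_TRIV : Prop :=
  ∀ (F L A ι : Type u) [Field F] [Infinite F] [Field L] [Algebra F L] [FiniteDimensional F L]
    [IsGalois F L] [Ring A] [Algebra F A] [Fintype ι] [DecidableEq ι] [Nonempty ι]
    (M : PMod (L ≃ₐ[F] L) L ι), Nonempty (Model F L A M) →
    Cohom (L ≃ₐ[F] L) L (fun _ _ => 1) M.a →
    Nonempty (A ≃ₐ[F] Matrix (Fin (Fintype.card ι)) (Fin (Fintype.card ι)) F)

/-- Block KILL (uses TRIV). The converse of `stmt_BRAUER` for the trivial class.

Proof. `m.tpow k : Model F L (⨂[F] _ : Fin k, A) (M.tpow k)` with cocycle `M.a g h ^ k`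
(`BRAUER.lean`), so TRIV gives `e : (⨂[F] _ : Fin k, A) ≃ₐ[F] Matrix (Fin l) (Fin l) F` with
`l = card (Fin k → ι) ≠ 0`. In `IsBrauerMultiple` take `k := 1` and `l := l`:
`Matrix (Fin 1) (Fin 1) R ≃ₐ R` (`Matrix.uniqueAlgEquiv`). -/
def Stmt_KILL : Prop :=
  ∀ (F L A ι : Type u) [Field F] [Infinite F] [Field L] [Algebra F L] [FiniteDimensional F L]
    [IsGalois F L] [Ring A] [Algebra F A] [FiniteDimensional F A] [Fintype ι] [DecidableEq ι]
    [Nonempty ι] (M : PMod (L ≃ₐ[F] L) L ι) (k : ℕ), Nonempty (Model F L A M) →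
    Cohom (L ≃ₐ[F] L) L (fun _ _ => 1) (fun g h => M.a g h ^ (k : ℤ)) → IsBrauerMultiple F A F k

/-- Block STA (uses CSA, KILL). If `2m[C] = 0` then the class `m[C]` is given, over a large Galois
extension `L`, by a monomial module on the roots of an irreducible polynomial `q` whose degree
divides `2 ^ d`.

Proof (compare `thmC` in `AsmB.lean`). `stmt_SEP` gives `f : C` with separable minimal polynomial
of degree `n` (`n > 0` by `deg_pos`); `stmt_ENLB E E (Fin 1)` gives `L₀` splitting it;
`stmt_MODEL stmt_SIMPLE` gives a monomial model `c₀.toPMod` of `C` over `L₀`, put `M₀ = c₀.toPMod`.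
`stmt_BRAUER` with `B = E`, `model_base E L₀` gives `M₀.a ^ (2m) ~ 1`. `C' = ⨂[E] _ : Fin m, C` has
the model `M₀.tpow m` (`Model.tpow`), so it is central simple by CSA, of dimension `(n^m)^2`
(`Model.dim`), finite-dimensional.
`IsSimpleRing.exists_algEquiv_matrix_divisionRing_finite E C'` gives a division algebra `D`,
`C' ≃ₐ Matrix (Fin t) (Fin t) D`, central of dimension `k ^ 2` (exactly as in `thmC`). `stmt_SEP` for
`D`: `f_D` with separable minimal polynomial `q` of degree `k`; `q` is irreducible
(`minpoly.irreducible`, `D` is a domain) and monic. `stmt_ENLB E L₀ (Fin 1)` gives `L ⊇ L₀`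
splitting `q`; `stmt_MODEL stmt_SIMPLE` gives the monomial model `c` of `D` over `L` on
`Roots E L q`. `M := M₀.inflGal L` is a model of `C` (`stmt_MINF`), `M.tpow m` is a model of `C'`;
`cohom_of_matrix (stmt_CMP stmt_ISOCOH)` gives `c.a ~ M.a ^ m`. Then
`c.a ^ 2 ~ M.a ^ (2m) = inflC L (M₀.a ^ (2m)) ~ 1` (`Cohom.infl`, or `stmt_BRAUER` over `L`), so
KILL gives `IsBrauerMultiple E D E 2` and the hypothesis gives `k ∣ 2 ^ d`. -/
def Stmt_STA : Prop :=
  ∀ (E C : Type u) [Field E] [Infinite E] [Ring C] [Algebra E C] [Algebra.IsCentral E C]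
    [IsSimpleRing C] [FiniteDimensional E C] (n m d : ℕ), Module.finrank E C = n ^ 2 →
    IsBrauerMultiple E C E (2 * m) →
    (∀ (D : Type u) [DivisionRing D] [Algebra E D] [Algebra.IsCentral E D] [FiniteDimensional E D]
      (k : ℕ), Module.finrank E D = k ^ 2 → IsBrauerMultiple E D E 2 → k ∣ 2 ^ d) →
    ∃ (L : Type u) (_ : Field L) (_ : Algebra E L) (_ : FiniteDimensional E L) (_ : IsGalois E L)
      (ι : Type u) (_ : Fintype ι) (_ : DecidableEq ι) (_ : Nonempty ι) (M : PMod (L ≃ₐ[E] L) L ι)
      (q : Polynomial E) (c : Mono (L ≃ₐ[E] L) L (Roots E L q)),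
      Nonempty (Model E L C M) ∧ Irreducible q ∧ q.Monic ∧ q.natDegree ∣ 2 ^ d ∧
      (q.map (algebraMap E L)).Splits ∧ Cohom (L ≃ₐ[E] L) L c.a (fun g h => M.a g h ^ (m : ℤ))

/-- Block STB (uses REST, KILL). The field generated by a root of `q` kills `m[C]`.

Proof. `q` is irreducible, so of positive degree, and splits in `L`: let `x : L` be a root. `K` is
the intermediate field `E⟮x⟯ = IntermediateField.adjoin E {x}` of `L / E` (as a type); it is finite
and separable over `E` and `finrank E K = natDegree (minpoly E x) = natDegree q`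
(`IntermediateField.adjoin.finrank`, `minpoly.eq_of_irreducible_of_monic`). REST:
`M.restr K` is a model of `K ⊗[E] C`. KILL over `K` (`K` is infinite, `L / K` Galois) reduces the
claim to `Cohom (L ≃ₐ[K] L) L 1 (fun g h => (M.restr K).a g h ^ m)`. For `g : L ≃ₐ[K] L` we have
`(g.restrictScalars E) x = x`, so `g.restrictScalars E` fixes the point `⟨x, _⟩` of `Roots E L q`;
`c.mul` at this point (as in `Mono.trivial_on`, which can be used for the range of the group
homomorphism, or copied with `g.restrictScalars E` in place of `g`) gives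
`Cohom (L ≃ₐ[K] L) L 1 (fun g h => c.a (g.restrictScalars E) (h.restrictScalars E))`, and
restricting the hypothesis `c.a ~ M.a ^ m` along `restrictScalars` finishes. -/
def Stmt_STB : Prop :=
  ∀ (E C L ι : Type u) [Field E] [Infinite E] [Ring C] [Algebra E C] [FiniteDimensional E C]
    [Field L] [Algebra E L] [FiniteDimensional E L] [IsGalois E L] [Fintype ι] [DecidableEq ι]
    [Nonempty ι] (M : PMod (L ≃ₐ[E] L) L ι) (q : Polynomial E)
    (c : Mono (L ≃ₐ[E] L) L (Roots E L q)) (m : ℕ), Nonempty (Model E L C M) → Irreducible q →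
    q.Monic → (q.map (algebraMap E L)).Splits →
    Cohom (L ≃ₐ[E] L) L c.a (fun g h => M.a g h ^ (m : ℤ)) →
    ∃ (K : Type u) (_ : Field K) (_ : Algebra E K) (_ : FiniteDimensional E K)
      (_ : Algebra.IsSeparable E K), Module.finrank E K = q.natDegree ∧
      IsBrauerMultiple K (K ⊗[E] C) K m

/-- Block BMI. Invariance of `IsBrauerMultiple` under isomorphisms.

Proof. `PiTensorProduct.congr (fun _ => e.toLinearEquiv)` is an `F`-linear equivalence
`⨂ A ≃ ⨂ A'`, multiplicative (check on pure tensors: `PiTensorProduct.tprod_mul_tprod`, or build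
the algebra maps in both directions with `PiTensorProduct.liftAlgHom` and
`AlgEquiv.ofAlgHom`); then `AlgEquiv.mapMatrix`. -/
def Stmt_BMI : Prop :=
  ∀ (F A A' B : Type u) [Field F] [Ring A] [Algebra F A] [Ring A'] [Algebra F A'] [Ring B]
    [Algebra F B] (r : ℕ) (_ : A ≃ₐ[F] A'), IsBrauerMultiple F A B r → IsBrauerMultiple F A' B r

/-- Block TWC. Towers.

Proof. (1) `k = 0`, `⊥ = ⊤` in `IntermediateField F F` (`Subsingleton`, or
`IntermediateField.ext`). (2) Given `k, M` for `K / K₁`, take `k + 1` and `M' 0 = ⊥`,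
`M' (i + 1) = (M i).restrictScalars F`. `M' 1 = (⊥ : IntermediateField K₁ K).restrictScalars F`
has degree `finrank F K₁` over `⊥` (`IntermediateField.relfinrank_bot_left`, the field `⊥` over
`K₁` is isomorphic to `K₁`); `relfinrank` of `restrictScalars` is unchanged (it is defined through
`toSubfield`, so it is `rfl`). (3) `GoodFieldStep`: `IntermediateField.relfinrank_eq_finrank_of_le`,
and each divisor `1, 2, 4` of `4` is a good degree: `r` prime to `2` is odd, and an odd number is
`1` or `-1` modulo `4` (`j = 0`). -/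
def Stmt_TWC : Prop :=
  (∀ (F : Type u) [Field F], FourTower F F) ∧
  (∀ (F K₁ K : Type u) [Field F] [Field K₁] [Field K] [Algebra F K₁] [Algebra K₁ K] [Algebra F K]
    [IsScalarTower F K₁ K], Module.finrank F K₁ ∣ 4 → FourTower K₁ K → FourTower F K) ∧
  (∀ (F K : Type u) [Field F] [Field K] [Algebra F K], FourTower F K → HasFieldTower F K)

/-- Block TWI (uses STA, STB, BMI, TWC). A tower that kills the `2`-primary part of the class.

Proof. Induction on `s`, for all fields and algebras. `s = 0`: `K = F`, `2 ^ 0 * k = k`, BMI with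
`(Algebra.TensorProduct.lid F A).symm`. Step: `2 ^ (s + 1) * k = 2 * (2 ^ s * k)`; STA over `F`
with `m = 2 ^ s * k` (`PeriodTwoBound F d` at `E = F`, `finrank F F = 1 = 2 ^ 0`), then STB give
`K₁ / F` separable of degree dividing `2 ^ d`, hence dividing `4` and a power of two
(`Nat.dvd_prime_pow`), with `IsBrauerMultiple K₁ (K₁ ⊗[F] A) K₁ (2 ^ s * k)`. `K₁ ⊗[F] A` is central
simple of dimension `n ^ 2` over `K₁` (`Algebra.IsCentral.baseChange`, `stmt_SIMPLE`,
`Module.finrank_baseChange`), `K₁` is infinite, and `PeriodTwoBound K₁ d` holds: an extension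
`E / K₁` is an extension of `F` via the composite algebra map (`letI`), separable of degree
`finrank F K₁ * finrank K₁ E`, a power of two (`Algebra.IsSeparable.trans`,
`Module.finrank_mul_finrank`). The induction hypothesis for `K₁` gives `K / K₁`; `K` is an algebra
over `F` by the composite map, `IsScalarTower F K₁ K`, finite and separable, TWC (2) gives the
tower, the degree is a product dividing `2 ^ d * 2 ^ (d * s)`, and
`Algebra.TensorProduct.cancelBaseChange F K₁ K K A : K ⊗[K₁] (K₁ ⊗[F] A) ≃ₐ[K] K ⊗[F] A` with BMI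
gives the last claim. -/
def Stmt_TWI : Prop :=
  ∀ (s d : ℕ), d ≤ 2 → ∀ (F A : Type u) [Field F] [Infinite F] [Ring A] [Algebra F A]
    [Algebra.IsCentral F A] [IsSimpleRing A] [FiniteDimensional F A] (n k : ℕ),
    PeriodTwoBound F d → Module.finrank F A = n ^ 2 → IsBrauerMultiple F A F (2 ^ s * k) →
    ∃ (K : Type u) (_ : Field K) (_ : Algebra F K) (_ : FiniteDimensional F K)
      (_ : Algebra.IsSeparable F K), FourTower F K ∧ Module.finrank F K ∣ 2 ^ (d * s) ∧
      IsBrauerMultiple K (K ⊗[F] A) K k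

/-- Block MNO. A class that is trivial on the stabiliser of a point of a transitive set is the
class of a monomial module on the set.

Proof. Let `P` be the stabiliser of `x` and `ν : P → L` from the hypothesis
(`b g h * ν (g * h) = ν g * g • ν h` on `P`); extend it to `ν' : G → L` by `1` outside `P`. Put
`b' g h = b g h * ν' (g * h) / (ν' g * g • ν' h)`: a cocycle with values `≠ 0`, `b' = 1` on `P`,
`Cohom G L b b'`. `exists_mono_quotient` (`IND.lean`) gives `c : Mono G L (G ⧸ P)` with
`c.a = b'`. Transport `c` along the equivariant bijection `G ⧸ P → X`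
(`MulAction.ofQuotientStabilizer G x`, injective, and surjective by transitivity): coefficients
`c.c g (e y)` with `e : X → G ⧸ P` the inverse, `e (g • y) = g • e y`. -/
def Stmt_MNO : Prop :=
  ∀ (G L X : Type u) [Group G] [Field L] [MulSemiringAction G L] [MulAction G X]
    [MulAction.IsPretransitive G X] (b : G → G → L) (x : X), IsCocyc b → (∀ g h, b g h ≠ 0) →
    Cohom (MulAction.stabilizer G x) L (fun _ _ => 1) (fun g h => b (g : G) (h : G)) →
    ∃ c : Mono G L X, Cohom G L b c.a

/-- Block RTS (uses MNO). The same for the set of roots of the minimal polynomial of a primitive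
element of `K` and a class that is trivial over `K`.

Proof. `minpoly F α` is irreducible and monic (`α` is integral over `F`), so `Gal(L/F)` is
transitive on its roots (`transitive_roots`). `x = ⟨algebraMap K L α, _⟩` is a root. If `g` fixes
`x` then `g` fixes the image of `K = F(α)` pointwise: the set of `y : K` with
`g (algebraMap K L y) = algebraMap K L y` is an intermediate field containing `α`. So `g` gives
`g' : L ≃ₐ[K] L` with `g'.restrictScalars F = g`, and `(g h)' = g' h'` (`AlgEquiv.ext`). With `ν`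
from the hypothesis, `g ↦ ν g'` shows that `b` is trivial on the stabiliser; use MNO. -/
def Stmt_RTS : Prop :=
  ∀ (F K L : Type u) [Field F] [Field K] [Field L] [Algebra F K] [Algebra F L] [Algebra K L]
    [IsScalarTower F K L] [FiniteDimensional F K] [FiniteDimensional F L] [IsGalois F L] (α : K)
    (b : (L ≃ₐ[F] L) → (L ≃ₐ[F] L) → L), IntermediateField.adjoin F {α} = ⊤ → IsCocyc b →
    (∀ g h, b g h ≠ 0) →
    Cohom (L ≃ₐ[K] L) L (fun _ _ => 1) (fun g h => b (g.restrictScalars F) (h.restrictScalars F)) →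
    ∃ c : Mono (L ≃ₐ[F] L) L (Roots F L (minpoly F α)), Cohom (L ≃ₐ[F] L) L b c.a

/-- Block FBP. The product of a monomial module on a set with a good tower and of monomial modules
on sets of coprime sizes with good exponents.

Proof (compare `stmt_PRODP` in `GDP.lean`). Put `Z = ∀ j, Y j`, `m = c.prod (Mono.pi e)` on
`X × Z`, `m' = m.zpow r`. Use `stmt_FIB` for the first projection `π : X × Z →[G] X`.
(a) Fibres: let `x : X`, `N = MulAction.stabilizer G x`, acting on each `Y j`, and
`e' j : Mono N L (Y j)` the restriction of `e j` (`c g y := (e j).c g y`, `a g h := (e j).a g h`).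
`Fib π x` has as many elements as `Z`. `c` is trivial on `N` (`Mono.trivial_on`), so `(m.fib π x).a`
is cohomologous to `(Mono.pi e').a`, and `(m'.fib π x).a` to `(Mono.pi fun j => (e' j).zpow r).a`.
So `stmt_UNIQM` (`faithful_restrict`, `InfFix.restrict`: see `GDP.lean`), `fin_PRODP` for `N` (the
periods restrict: `Cohom.restrict`) and again `stmt_UNIQM` give the relation.
(b) Base: `R, R'` over `M` of classes `m.a`, `m.a ^ r` (images in `M`): `fin_TOW r G X` over `M`
(`faithful_of_gField`, `InfFix.map`; `R.a ^ r ~ R'.a` by `Cohom.zpow` and `map_zpow₀`). -/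
def Stmt_FBP : Prop :=
  ∀ (G L X : Type u) (J : Type) (Y : J → Type u) [Group G] [Finite G] [Field L]
    [MulSemiringAction G L] [FaithfulSMul G L] [MulAction G X] [Finite X] [Nonempty X]
    [∀ j, MulAction G (Y j)] [Fintype J] [∀ j, Finite (Y j)] [∀ j, Nonempty (Y j)]
    (c : Mono G L X) (e : ∀ j, Mono G L (Y j)) (r : ℕ) (m : J → ℕ),
    InfFix G L → HasTower r G X →
    (∀ j, Cohom G L (fun _ _ => 1) (fun g h => (e j).a g h ^ (m j : ℤ))) →
    (∀ j, GoodFor r (m j) (Nat.card (Y j))) →
    (∀ i j, i ≠ j → (Nat.card (Y i)).Coprime (Nat.card (Y j))) →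
    (c.prod (Mono.pi e)).BirTo ((c.prod (Mono.pi e)).zpow (r : ℤ))

/-- Block ARI. Arithmetic of the primary parts.

Proof (compare `thmP` in `AsmP.lean`). (1) `n = 2 ^ v₂(n) * (n / 2 ^ v₂(n))` and the second factor
is the product of the odd prime powers (`Nat.prod_factorization_pow_eq_self`,
`Nat.factorization_prod_pow_eq_self`; the `p j` that do not divide `n` contribute `1`; the odd
prime divisors of `n` are among the `p j`, which are pairwise different: e.g. compare
factorizations with `Nat.eq_of_factorization_eq`). (2) The integer of `exists_exponent`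
(`AsmA.lean`), made nonnegative by adding a multiple of `n`. (3) By (1) and pairwise coprimality
it suffices that each `p j ^ v` and `2 ^ v₂(n)` divide `k₂ + Σ k_j - 1`
(`Finset.prod_dvd_of_coprime`, `IsCoprime.mul_dvd`): modulo `p i ^ v` the exponents `k_j`, `j ≠ i`,
and `k₂` vanish, since `p i ^ v ∣ n / p j ^ v`, and `k_i = 1`; the same modulo `2 ^ v₂(n)`. -/
def Stmt_ARI : Prop :=
  ∀ (n : ℕ), 0 < n → ∀ (J : Type) [Fintype J] (p : J → ℕ), Function.Injective p →
    (∀ j, (p j).Prime ∧ p j ≠ 2) → (∀ q : ℕ, q.Prime → q ≠ 2 → q ∣ n → ∃ j, p j = q) →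
    (2 ^ n.factorization 2 * ∏ j, p j ^ n.factorization (p j) = n) ∧
    (∃ k₂ : ℕ, ((2 ^ n.factorization 2 : ℕ) : ℤ) ∣ (k₂ : ℤ) - 1 ∧
      n / 2 ^ n.factorization 2 ∣ k₂) ∧
    ∀ (k : J → ℤ) (k₂ : ℤ),
      (∀ j, ((p j ^ n.factorization (p j) : ℕ) : ℤ) ∣ k j - 1 ∧
        ((n / p j ^ n.factorization (p j) : ℕ) : ℤ) ∣ k j) →
      ((2 ^ n.factorization 2 : ℕ) : ℤ) ∣ k₂ - 1 →
      ((n / 2 ^ n.factorization 2 : ℕ) : ℤ) ∣ k₂ → (n : ℤ) ∣ (k₂ + ∑ j, k j) - 1

/-- The main theorem. -/
def Stmt_P2 : Prop :=
  ∀ (F A B : Type u) [Field F] [Ring A] [Algebra F A] [Algebra.IsCentral F A] [IsSimpleRing A]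
    [FiniteDimensional F A] [Ring B] [Algebra F B] [Algebra.IsCentral F B] [IsSimpleRing B]
    [FiniteDimensional F B] (d n t : ℕ), d ≤ 2 → PeriodTwoBound F d → 0 < t →
    (t = n ∨ IsBrauerMultiple F A F t) → GoodOddPart t →
    d * t.factorization 2 ≤ n.factorization 2 →
    Module.finrank F A = n ^ 2 → Module.finrank F B = n ^ 2 → SameSubgroup F A B →
    Birational F A B

end Pool.Agent.MP12f267
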